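import Pool.Agent.Lib.MP_732f67_ag.G2.Defs
import Pool.Agent.Lib.MP_732f67_ag.T.Lin

/-!
The degree of the field `R.F` over the image `Lp` of the subfield `L`.
-/

namespace Pool.Agent.KM

open Polynomial
open Pool.Agent.Lib.MP_732f67_ag

section gen

variable {k F : Type*} [Field k] [Field F] [Algebra k F]

/-- the elements of the field generated by `x` are fractions -/
theorem mem_adj {ι : Type*} {x : ι → F} {a : F}
    (h : a ∈ IntermediateField.adjoin k (Set.range x)) : ∃ p q : MvPolynomial ι k,
      MvPolynomial.aeval x q ≠ 0 ∧ MvPolynomial.aeval x q * a = MvPolynomial.aeval x p := by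
  obtain ⟨p, q, rfl⟩ := (IntermediateField.mem_adjoin_range_iff k x a).1 h
  by_cases hq : MvPolynomial.aeval x q = 0
  · exact ⟨0, 1, by rw [map_one]; exact one_ne_zero, by rw [hq, div_zero, mul_zero, map_zero]⟩
  · exact ⟨p, q, hq, mul_div_cancel₀ _ hq⟩

/-- a lower bound for the degree -/
theorem le_natDegree_of {n : ℕ} {x : Fin n → F} {w : F} {D : ℕ}
    (h : ∀ g : (MvPolynomial (Fin n) k)[X], g.natDegree < D →
      g.eval₂ (MvPolynomial.aeval x : MvPolynomial (Fin n) k →ₐ[k] F).toRingHom w = 0 → g = 0)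
    {m : (IntermediateField.adjoin k (Set.range x))[X]} (hm : m.Monic)
    (h0 : Polynomial.aeval w m = 0) : D ≤ m.natDegree := by
  classical
  by_contra hcon
  push Not at hcon
  choose p q hq hpq using fun i => mem_adj (m.coeff i).2
  set K := m.natDegree with hK
  set S := Finset.range (K + 1) with hS
  set g : (MvPolynomial (Fin n) k)[X] :=
    ∑ i ∈ S, Polynomial.monomial i (p i * ∏ j ∈ S.erase i, q j) with hg
  have hgc : ∀ i ∈ S, g.coeff i = p i * ∏ j ∈ S.erase i, q j := by
    intro i hi
    rw [hg, Polynomial.finsetSum_coeff, Finset.sum_eq_single i]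
    · rw [Polynomial.coeff_monomial, if_pos rfl]
    · intro j _ hj
      rw [Polynomial.coeff_monomial, if_neg hj]
    · intro h1
      exact absurd hi h1
  have hgd : g.natDegree ≤ K := by
    refine Polynomial.natDegree_sum_le_of_forall_le _ _ fun i hi => ?_
    exact (Polynomial.natDegree_monomial_le _).trans (Nat.lt_succ_iff.1 (Finset.mem_range.1 hi))
  have hKS : K ∈ S := Finset.mem_range.2 (Nat.lt_succ_self K)
  have hg0 : g = 0 := by
    refine h g (lt_of_le_of_lt hgd hcon) ?_
    rw [hg, Polynomial.eval₂_finsetSum]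
    have h1 : (∏ j ∈ S, MvPolynomial.aeval x (q j)) *
        ∑ i ∈ S, (m.coeff i : F) * w ^ i = 0 := by
      have h2 : ∑ i ∈ S, (m.coeff i : F) * w ^ i = 0 := by
        rw [← h0, Polynomial.aeval_eq_sum_range]
        exact Finset.sum_congr rfl fun i _ => rfl
      rw [h2, mul_zero]
    rw [← h1, Finset.mul_sum]
    refine Finset.sum_congr rfl fun i hi => ?_
    rw [Polynomial.eval₂_monomial]
    show MvPolynomial.aeval x (p i * ∏ j ∈ S.erase i, q j) * w ^ i = _
    rw [map_mul, map_prod, ← hpq i, ← Finset.mul_prod_erase _ _ hi]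
    ring
  have h1 := hgc K hKS
  rw [hg0, Polynomial.coeff_zero] at h1
  have h2 := congrArg (MvPolynomial.aeval x) h1
  rw [map_zero, map_mul, map_prod, ← hpq K] at h2
  have h3 : m.coeff K = 1 := hm
  rw [h3] at h2
  have h4 : (MvPolynomial.aeval x (q K) * ((1 : IntermediateField.adjoin k (Set.range x)) : F)) *
      ∏ j ∈ S.erase K, MvPolynomial.aeval x (q j) ≠ 0 :=
    mul_ne_zero (mul_ne_zero (hq K) one_ne_zero) (Finset.prod_ne_zero_iff.2 fun j _ => hq j)
  exact h4 h2.symm

/-- the degree of a simple extension -/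
theorem finrank_of_top {y : F} (hy : IntermediateField.adjoin k {y} = ⊤) (hyi : IsIntegral k y) :
    Module.finrank k F = (minpoly k y).natDegree := by
  rw [← IntermediateField.finrank_top', ← hy, IntermediateField.adjoin.finrank hyi]

theorem finite_of_top {y : F} (hy : IntermediateField.adjoin k {y} = ⊤) (hyi : IsIntegral k y) :
    Module.Finite k F := by
  have h1 := IntermediateField.adjoin.finiteDimensional hyi
  rw [hy] at h1
  exact Module.Finite.equiv (IntermediateField.topEquiv (F := k) (E := F)).toLinearEquiv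

/-- the degrees in a tower -/
theorem tower_deg {y z : F} (hy : IntermediateField.adjoin k {y} = ⊤) (hyi : IsIntegral k y) :
    (minpoly k y).natDegree =
      (minpoly k z).natDegree * (minpoly (IntermediateField.adjoin k {z}) y).natDegree := by
  have hfin := finite_of_top hy hyi
  have hz : IsIntegral k z := IsIntegral.of_finite k z
  have h1 : IntermediateField.adjoin (IntermediateField.adjoin k {z}) {y} = ⊤ := by
    rw [eq_top_iff]
    intro a _
    have h2 : a ∈ IntermediateField.adjoin k {y} := by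
      rw [hy]
      exact IntermediateField.mem_top
    have h3 : IntermediateField.adjoin k {y} ≤
        (IntermediateField.adjoin (IntermediateField.adjoin k {z}) {y}).restrictScalars k := by
      rw [IntermediateField.adjoin_le_iff]
      intro b hb
      rw [SetLike.mem_coe, IntermediateField.mem_restrictScalars]
      exact IntermediateField.subset_adjoin (IntermediateField.adjoin k {z}) {y} hb
    exact h3 h2
  rw [← finrank_of_top hy hyi, ← IntermediateField.adjoin.finrank hz,
    ← finrank_of_top h1 (hyi.tower_top), Module.finrank_mul_finrank]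

/-- the degree over a bigger field -/
theorem minpoly_le {K₁ K₂ : Type*} [Field K₁] [Field K₂] [Algebra K₁ F] [Algebra K₂ F]
    (f : K₁ →+* K₂) (hf : ∀ c, algebraMap K₂ F (f c) = algebraMap K₁ F c) {y : F}
    (hy : IsIntegral K₁ y) : (minpoly K₂ y).natDegree ≤ (minpoly K₁ y).natDegree := by
  have hmon := minpoly.monic hy
  have h1 : Polynomial.aeval y ((minpoly K₁ y).map f) = 0 := by
    rw [Polynomial.aeval_def, Polynomial.eval₂_map]
    have h2 : (algebraMap K₂ F).comp f = algebraMap K₁ F := RingHom.ext hf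
    rw [h2]
    exact minpoly.aeval K₁ y
  have h2 := Polynomial.natDegree_le_of_dvd (minpoly.dvd K₂ y h1) (hmon.map f).ne_zero
  rwa [hmon.natDegree_map] at h2

end gen

section red

variable {E : Type} [Field E] [Algebra ℂ E] {n : ℕ} {t : Fin n → E} {y0 yL : E}
  {L : IntermediateField ℂ E}

theorem aeval_ne (ht : IsTranscendenceBasis ℂ t) {q : MvPolynomial (Fin n) ℂ} (hq : q ≠ 0) :
    (MvPolynomial.aeval t q : E) ≠ 0 := fun h => hq (ht.1 (h.trans (map_zero _).symm))

/-- elements of `L` reduce to elements of `Lp` -/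
theorem ev_memLp (ht : IsTranscendenceBasis ℂ t) (hL : PrimL L t yL) {x : E} (hx : x ∈ L) :
    Ev t y0 fun R => R.r x ∈ Lp R yL := by
  obtain ⟨q, g, hq, hg⟩ := hL.gen x hx
  exact (ev_gen_one (x := t) (w := yL) (z := x) ⟨q, g, aeval_ne ht hq, hg⟩).mono fun R hR => hR

/-- elements of `ℂ(t)` reduce to elements of `𝔽_p(t)` -/
theorem ev_memKt {x : E} (hx : x ∈ IntermediateField.adjoin ℂ (Set.range t)) :
    Ev t y0 fun R => R.r x ∈
      IntermediateField.adjoin (ZMod R.p) (Set.range fun i => R.r (t i)) := by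
  obtain ⟨p, q, hq, hpq⟩ := mem_adj hx
  refine (ev_gen_one (x := t) (w := 1) (z := x) ⟨q, Polynomial.C p, hq, ?_⟩).mono fun R hR => ?_
  · rw [Polynomial.eval₂_C]
    exact hpq
  · have h1 : IntermediateField.adjoin (ZMod R.p) (insert (R.r 1)
        (Set.range fun i => R.r (t i))) ≤
        IntermediateField.adjoin (ZMod R.p) (Set.range fun i => R.r (t i)) := by
      rw [IntermediateField.adjoin_le_iff]
      rintro a (rfl | ha)
      · rw [R.r_one]
        exact one_mem _
      · exact IntermediateField.subset_adjoin _ _ ha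
    exact h1 hR

/-- polynomial equations reduce -/
theorem ev_root {K : IntermediateField ℂ E} {w : E} {m : K[X]} (hm : m.Monic)
    (h0 : Polynomial.aeval w m = 0) :
    Ev t y0 fun R => ∀ (K' : Type) [Field K'] [Algebra K' R.F],
      (∀ i ∈ Finset.range (m.natDegree + 1), ∃ c : K', algebraMap K' R.F c = R.r (m.coeff i : E)) →
      IsIntegral K' (R.r w) ∧ (minpoly K' (R.r w)).natDegree ≤ m.natDegree := by
  refine ((Ev.all_mem (Finset.range (m.natDegree + 1)) fun i _ =>
    ev_mem (m.coeff i : E)).and (ev_mem w)).mono fun R hR K' _ _ hK' => ?_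
  obtain ⟨hcm, hw⟩ := hR
  choose! b hb using hK'
  set S := Finset.range (m.natDegree + 1) with hS
  set P : K'[X] := ∑ i ∈ S, Polynomial.monomial i (b i) with hP
  have hkS : m.natDegree ∈ S := Finset.mem_range.2 (Nat.lt_succ_self _)
  have hPd : P.natDegree ≤ m.natDegree := by
    refine Polynomial.natDegree_sum_le_of_forall_le _ _ fun i hi => ?_
    exact (Polynomial.natDegree_monomial_le _).trans (Nat.lt_succ_iff.1 (Finset.mem_range.1 hi))
  have hPc : P.coeff m.natDegree = 1 := by
    rw [hP, Polynomial.finsetSum_coeff, Finset.sum_eq_single m.natDegree]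
    · rw [Polynomial.coeff_monomial, if_pos rfl]
      apply (algebraMap K' R.F).injective
      rw [hb _ hkS, map_one]
      have h1 : m.coeff m.natDegree = 1 := hm
      rw [h1]
      exact R.r_one
    · intro j _ hj
      rw [Polynomial.coeff_monomial, if_neg hj]
    · intro h1
      exact absurd hkS h1
  have hPm : P.Monic := Polynomial.monic_of_natDegree_le_of_coeff_eq_one _ hPd hPc
  have hP0 : Polynomial.aeval (R.r w) P = 0 := by
    rw [hP, map_sum]
    have h1 : ∑ i ∈ S, (m.coeff i : E) * w ^ i = 0 := by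
      rw [← h0, Polynomial.aeval_eq_sum_range]
      exact Finset.sum_congr rfl fun i _ => rfl
    have h2 := congrArg R.r h1
    rw [R.r_sum _ _ fun i hi => R.Λ.mul_mem (hcm i hi) (R.Λ.pow_mem hw i), R.r_zero] at h2
    rw [← h2]
    refine Finset.sum_congr rfl fun i hi => ?_
    rw [Polynomial.aeval_monomial, hb i hi, R.r_mul (hcm i hi) (R.Λ.pow_mem hw i), R.r_pow hw]
  refine ⟨⟨P, hPm, hP0⟩, ?_⟩
  exact (Polynomial.natDegree_le_of_dvd (minpoly.dvd K' _ hP0) hPm.ne_zero).trans hPd

/-- **the degree of `R.F` over the image of `L`** -/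
theorem ev_degL (hp : Prim t y0) (hL : PrimL L t yL) [hfin : Module.Finite L E] :
    Ev t y0 fun R => IsIntegral (Lp R yL) (R.r y0) ∧
      (minpoly (Lp R yL) (R.r y0)).natDegree = (minpoly L y0).natDegree ∧
      IntermediateField.adjoin (Lp R yL) {R.r y0} = ⊤ := by
  classical
  obtain ⟨f, hfm, hfd, hf0, hfk, -⟩ := hp.int
  have hirr := T.prim_irr hp.basis.1 hfm hfd hf0 hfk
  -- characteristic zero
  set K₀ : IntermediateField ℂ E := IntermediateField.adjoin ℂ (Set.range t) with hK₀
  have haev : ∀ p : MvPolynomial (Fin n) ℂ, (MvPolynomial.aeval t p : E) ∈ K₀ := by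
    intro p
    have h1 : (MvPolynomial.aeval t p : E) ∈ Algebra.adjoin ℂ (Set.range t) := by
      rw [Algebra.adjoin_range_eq_range_aeval]
      exact ⟨p, rfl⟩
    exact IntermediateField.algebra_adjoin_le_adjoin ℂ _ h1
  obtain ⟨f', hf'm, hf'd, hf'0⟩ : ∃ f' : K₀[X], f'.Monic ∧ f'.natDegree = f.natDegree ∧
      Polynomial.aeval y0 f' = 0 := by
    let φ : MvPolynomial (Fin n) ℂ →+* K₀ :=
      (MvPolynomial.aeval t : MvPolynomial (Fin n) ℂ →ₐ[ℂ] E).toRingHom.codRestrict K₀ haev
    refine ⟨f.map φ, hfm.map φ, hfm.natDegree_map φ, ?_⟩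
    rw [Polynomial.aeval_def, Polynomial.eval₂_map]
    exact hf0
  have hint0 : IsIntegral K₀ y0 := ⟨f', hf'm, hf'0⟩
  have hdeg0 : (minpoly K₀ y0).natDegree ≤ f.natDegree := by
    rw [← hf'd]
    exact Polynomial.natDegree_le_of_dvd (minpoly.dvd K₀ _ hf'0) hf'm.ne_zero
  have htop0 : IntermediateField.adjoin K₀ {y0} = ⊤ := by
    rw [eq_top_iff]
    intro a _
    obtain ⟨q, g, hq, hg⟩ := hp.gen a
    have hq' := aeval_ne hp.basis hq
    have hmem : ∀ p : MvPolynomial (Fin n) ℂ, (MvPolynomial.aeval t p : E) ∈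
        IntermediateField.adjoin K₀ {y0} := fun p =>
      IntermediateField.algebraMap_mem _ (⟨_, haev p⟩ : K₀)
    have h1 : a = (MvPolynomial.aeval t q)⁻¹ * g.eval₂
        (MvPolynomial.aeval t : MvPolynomial (Fin n) ℂ →ₐ[ℂ] E).toRingHom y0 := by
      rw [← hg, inv_mul_cancel_left₀ hq']
    rw [h1, Polynomial.eval₂_eq_sum_range]
    exact mul_mem (inv_mem (hmem q)) (sum_mem fun i _ => mul_mem (hmem _)
      (pow_mem (IntermediateField.mem_adjoin_simple_self _ _) i))
  have hfin0 := finite_of_top htop0 hint0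
  have htow0 := tower_deg (z := yL) htop0 hint0
  have hintL : IsIntegral K₀ yL := IsIntegral.of_finite K₀ yL
  have hkpos : 0 < (minpoly K₀ yL).natDegree := minpoly.natDegree_pos hintL
  have hintL0 : IsIntegral L y0 := IsIntegral.of_finite L y0
  have hinc : (minpoly L y0).natDegree ≤
      (minpoly (IntermediateField.adjoin K₀ {yL}) y0).natDegree := by
    have hle : ∀ x ∈ IntermediateField.adjoin K₀ {yL}, x ∈ L := by
      have h0 : K₀ ≤ L := by
        rw [hK₀, IntermediateField.adjoin_le_iff]
        rintro _ ⟨i, rfl⟩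
        exact hL.t_mem i
      have h1 : IntermediateField.adjoin K₀ {yL} ≤ IntermediateField.extendScalars h0 := by
        rw [IntermediateField.adjoin_le_iff]
        rintro _ rfl
        exact hL.y_mem
      intro x hx
      exact h1 hx
    let φ : IntermediateField.adjoin K₀ {yL} →+* L :=
      { toFun := fun x => ⟨x, hle x x.2⟩
        map_one' := rfl
        map_mul' := fun _ _ => rfl
        map_zero' := rfl
        map_add' := fun _ _ => rfl }
    exact minpoly_le φ (fun _ => rfl) hint0.tower_top
  -- the reductions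
  refine (((ev_deg hp.basis hp.basis f hfm hirr hf0).and
    ((ev_root (t := t) (y0 := y0) (minpoly.monic hintL) (minpoly.aeval K₀ yL)).and
    (ev_root (t := t) (y0 := y0) (minpoly.monic hintL0) (minpoly.aeval L y0)))).and
    ((Ev.all_mem (Finset.range ((minpoly K₀ yL).natDegree + 1)) fun i _ =>
      ev_memKt (y0 := y0) ((minpoly K₀ yL).coeff i).2).and
    (Ev.all_mem (Finset.range ((minpoly L y0).natDegree + 1)) fun i _ =>
      ev_memLp (y0 := y0) hp.basis hL ((minpoly L y0).coeff i).2))).mono fun R hR => ?_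
  obtain ⟨⟨hdeg, hrL, hr0⟩, hmK, hmL⟩ := hR
  set Kt := IntermediateField.adjoin (ZMod R.p) (Set.range fun i => R.r (t i)) with hKt
  have hrt : (fun i => R.r (t i)) = fun i => R.π (R.ρ2 ⟨t i, R.t_mem i⟩) :=
    funext fun i => R.r_of (R.t_mem i)
  have hry : R.r y0 = R.π (R.ρ2 ⟨y0, R.y_mem⟩) := R.r_of R.y_mem
  have htopp : IntermediateField.adjoin (ZMod R.p) (insert (R.r y0)
      (Set.range fun i => R.r (t i))) = ⊤ := by
    rw [hrt, hry]
    exact R.fg
  have hKtop : IntermediateField.adjoin Kt {R.r y0} = ⊤ := by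
    rw [eq_top_iff]
    intro a _
    have h1 : IntermediateField.adjoin (ZMod R.p) (insert (R.r y0)
        (Set.range fun i => R.r (t i))) ≤
        (IntermediateField.adjoin Kt {R.r y0}).restrictScalars (ZMod R.p) := by
      rw [IntermediateField.adjoin_le_iff]
      rintro b (rfl | hb)
      · rw [SetLike.mem_coe, IntermediateField.mem_restrictScalars]
        exact IntermediateField.mem_adjoin_simple_self Kt _
      · rw [SetLike.mem_coe, IntermediateField.mem_restrictScalars]
        exact IntermediateField.algebraMap_mem _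
          (⟨b, IntermediateField.subset_adjoin _ _ hb⟩ : Kt)
    rw [htopp] at h1
    exact h1 IntermediateField.mem_top
  -- the field `Lp`
  have htLp : ∀ x ∈ Kt, x ∈ Lp R yL := by
    intro x hx
    have h1 : Kt ≤ IntermediateField.adjoin (ZMod R.p) (insert (R.r yL)
        (Set.range fun i => R.r (t i))) :=
      IntermediateField.adjoin.mono _ _ _ (Set.subset_insert _ _)
    exact h1 hx
  have hyLp : R.r yL ∈ Lp R yL := Subfield.subset_closure (Or.inr (Set.mem_insert _ _))
  have hLptop : IntermediateField.adjoin (Lp R yL) {R.r y0} = ⊤ := by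
    rw [eq_top_iff]
    intro a _
    have h1 : ∀ b ∈ IntermediateField.adjoin (ZMod R.p) (insert (R.r y0)
        (Set.range fun i => R.r (t i))), b ∈ IntermediateField.adjoin (Lp R yL) {R.r y0} := by
      intro b hb
      have h3 : Subfield.closure (Set.range (algebraMap (ZMod R.p) R.F) ∪ insert (R.r y0)
          (Set.range fun i => R.r (t i))) ≤
          (IntermediateField.adjoin (Lp R yL) {R.r y0}).toSubfield := by
        rw [Subfield.closure_le]
        rintro c (⟨c, rfl⟩ | rfl | hc)
        · exact IntermediateField.algebraMap_mem _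
            (⟨_, Subfield.subset_closure (Or.inl ⟨c, rfl⟩)⟩ : Lp R yL)
        · exact IntermediateField.mem_adjoin_simple_self _ _
        · exact IntermediateField.algebraMap_mem _
            (⟨c, Subfield.subset_closure (Or.inr (Set.mem_insert_of_mem _ hc))⟩ : Lp R yL)
      exact h3 hb
    refine h1 a ?_
    rw [htopp]
    exact IntermediateField.mem_top
  obtain ⟨hintp0, hdp⟩ := hr0 (Lp R yL) fun i hi => ⟨⟨_, hmL i hi⟩, rfl⟩
  obtain ⟨hintpL, hkp⟩ := hrL Kt fun i hi => ⟨⟨_, hmK i hi⟩, rfl⟩
  have hle : ∀ x ∈ Lp R yL, x ∈ IntermediateField.adjoin Kt {R.r yL} := by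
    have h3 : Lp R yL ≤ (IntermediateField.adjoin Kt {R.r yL}).toSubfield := by
      unfold Lp
      rw [Subfield.closure_le]
      rintro c (⟨c, rfl⟩ | rfl | hc)
      · exact IntermediateField.algebraMap_mem _ (algebraMap (ZMod R.p) Kt c)
      · exact IntermediateField.mem_adjoin_simple_self _ _
      · exact IntermediateField.algebraMap_mem _
          (⟨c, IntermediateField.subset_adjoin _ _ hc⟩ : Kt)
    exact fun x hx => h3 hx
  have hintKt : IsIntegral Kt (R.r y0) := by
    have h1 : IsIntegral (IntermediateField.adjoin Kt {R.r yL}) (R.r y0) := by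
      let φ : Lp R yL →+* IntermediateField.adjoin Kt {R.r yL} :=
        { toFun := fun x => ⟨x, hle x x.2⟩
          map_one' := rfl
          map_mul' := fun _ _ => rfl
          map_zero' := rfl
          map_add' := fun _ _ => rfl }
      obtain ⟨P, hP, hP0⟩ := hintp0
      refine ⟨P.map φ, hP.map φ, ?_⟩
      rw [Polynomial.eval₂_map]
      exact hP0
    have h2 : Algebra.IsIntegral Kt (IntermediateField.adjoin Kt {R.r yL}) := by
      have := IntermediateField.adjoin.finiteDimensional hintpL
      infer_instance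
    exact isIntegral_trans _ h1
  have htowp := tower_deg (z := R.r yL) hKtop hintKt
  have hD : f.natDegree ≤ (minpoly Kt (R.r y0)).natDegree :=
    le_natDegree_of (fun g hg hg0 => hdeg g hg hg0) (minpoly.monic hintKt) (minpoly.aeval Kt _)
  have hincp : (minpoly (IntermediateField.adjoin Kt {R.r yL}) (R.r y0)).natDegree ≤
      (minpoly (Lp R yL) (R.r y0)).natDegree := by
    let φ : Lp R yL →+* IntermediateField.adjoin Kt {R.r yL} :=
      { toFun := fun x => ⟨x, hle x x.2⟩
        map_one' := rfl
        map_mul' := fun _ _ => rfl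
        map_zero' := rfl
        map_add' := fun _ _ => rfl }
    exact minpoly_le φ (fun _ => rfl) hintp0
  refine ⟨hintp0, le_antisymm hdp ?_, hLptop⟩
  have h1 : (minpoly K₀ yL).natDegree * (minpoly L y0).natDegree ≤
      (minpoly K₀ yL).natDegree * (minpoly (Lp R yL) (R.r y0)).natDegree := by
    calc (minpoly K₀ yL).natDegree * (minpoly L y0).natDegree ≤
        (minpoly K₀ yL).natDegree *
          (minpoly (IntermediateField.adjoin K₀ {yL}) y0).natDegree := Nat.mul_le_mul_left _ hinc
      _ = (minpoly K₀ y0).natDegree := htow0.symm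
      _ ≤ f.natDegree := hdeg0
      _ ≤ (minpoly Kt (R.r y0)).natDegree := hD
      _ = (minpoly Kt (R.r yL)).natDegree *
          (minpoly (IntermediateField.adjoin Kt {R.r yL}) (R.r y0)).natDegree := htowp
      _ ≤ (minpoly K₀ yL).natDegree * (minpoly (Lp R yL) (R.r y0)).natDegree :=
          Nat.mul_le_mul hkp hincp
  exact Nat.le_of_mul_le_mul_left h1 hkpos

/-- `[R.F : Lp] = [E : L]` -/
theorem ev_finrankL (hp : Prim t y0) (hL : PrimL L t yL) [hfin : Module.Finite L E] :
    Ev t y0 fun R => Module.Finite (Lp R yL) R.F ∧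
      Module.finrank (Lp R yL) R.F = Module.finrank L E := by
  refine (ev_degL hp hL).mono fun R hR => ?_
  obtain ⟨h1, h2, h3⟩ := hR
  refine ⟨finite_of_top h3 h1, ?_⟩
  rw [finrank_of_top h3 h1, h2]
  have hint : IsIntegral L y0 := IsIntegral.of_finite L y0
  refine (finrank_of_top ?_ hint).symm
  rw [eq_top_iff]
  intro a _
  obtain ⟨q, g, hq, hg⟩ := hp.gen a
  have hq' := aeval_ne hp.basis hq
  have hmem : ∀ p : MvPolynomial (Fin n) ℂ, (MvPolynomial.aeval t p : E) ∈
      IntermediateField.adjoin L {y0} := by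
    intro p
    have h4 : (MvPolynomial.aeval t p : E) ∈ L := by
      have h5 : (MvPolynomial.aeval t p : E) ∈ Algebra.adjoin ℂ (Set.range t) := by
        rw [Algebra.adjoin_range_eq_range_aeval]
        exact ⟨p, rfl⟩
      have h6 : Algebra.adjoin ℂ (Set.range t) ≤ L.toSubalgebra := by
        refine Algebra.adjoin_le ?_
        rintro _ ⟨i, rfl⟩
        exact hL.t_mem i
      exact h6 h5
    exact IntermediateField.algebraMap_mem _ (⟨_, h4⟩ : L)
  have h4 : a = (MvPolynomial.aeval t q)⁻¹ * g.eval₂
      (MvPolynomial.aeval t : MvPolynomial (Fin n) ℂ →ₐ[ℂ] E).toRingHom y0 := by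
    rw [← hg, inv_mul_cancel_left₀ hq']
  rw [h4, Polynomial.eval₂_eq_sum_range]
  exact mul_mem (inv_mem (hmem q)) (sum_mem fun i _ => mul_mem (hmem _)
    (pow_mem (IntermediateField.mem_adjoin_simple_self _ _) i))

end red

end Pool.Agent.KM
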