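import Pool.Agent.Lib.MP_732f67_ag.T2.Last
import Pool.Agent.Lib.MP_732f67_ag.T2.Deg

/-!
# Project KM: the theorem on the atlas over the subfield `L`
-/

set_option autoImplicit false

namespace Pool.Agent.Lib.MP_732f67_ag.T

open Pool.Agent.KM

/-- **the theorem on the atlas**: the inequality, and the equality data over the field `Lp` for
reductions with arbitrary given properties -/
theorem tthmL : TThmL := by
  intro E _ _ n r Y S h hN
  have hX := h.ok
  haveI := h.fin
  have key := ev_theoremL h hN (fun x hx => ev_memLp hX.prim.basis h.prim hx)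
    (ev_finrankL hX.prim h.prim)
  refine ⟨?_, ?_⟩
  · obtain ⟨R, hR⟩ := Ev.exists hX.prim key
    exact hR.1
  · intro heq P hP
    obtain ⟨R, hR, hPR⟩ := Ev.exists hX.prim (key.and hP)
    exact ⟨R, hPR, hR.2 heq⟩

end Pool.Agent.Lib.MP_732f67_ag.T
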