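import Pool.Agent.Lib.MP_732f67_ag.T2.ChL
import Pool.Agent.Lib.MP_732f67_ag.T.JacR
import Pool.Agent.Lib.MP_732f67_ag.T.PolCan

/-!
# Project KM: the canonical equation on the charts of `L` at the reductions
-/

set_option autoImplicit false

namespace Pool.Agent.Lib.MP_732f67_ag.T

open Pool.Agent.KM
open Pool.Agent.Lib.MP_732f67_ag.KC (IsPB PBA Ref)

variable {E : Type} [Field E] [Algebra ℂ E] {n : ℕ} {I : Type} [Fintype I] {Y : AtD E n I}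

private theorem canL_jac_ne {S : AtL Y} (h : S.Ok) (b : Fin S.k') : S.jac' b ≠ 0 := by
  intro h0
  have h1 := (h.can b).1
  rw [h0, zero_pow h.ok.q_pos.ne', inv_zero, mul_zero, zero_mul] at h1
  exact h1 rfl

/-- PROOF. `jac' b = det (D i (x' b l))`; it is not zero because `can` gives `ω * (jac' ^ q)⁻¹ * .. ≠ 0`.
`dok_all` for the elements `x' b l`: `D' k (r (x' b l)) = r (D k (x' b l))`; the determinant in
`CanL` is the transpose of the one in `jac'` (`Matrix.det_transpose`), and `r` commutes with the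
determinant (`r_sum`, `r_mul`, `r_prod`; compare `ev_jac` in T/JacR). Then `ev_BR_unit` for the unit
`U = ω * (jac' ^ q)⁻¹ * ∏ d' ^ c`, and `r ω * ∏ r (d') ^ c = r U * J ^ q`; take the power `a`. -/
theorem ev_canL {S : AtL Y} (h : S.Ok) : Ev Y.t Y.y0 fun R => ∀ b, (∀ i, R.r (S.d' b i) ≠ 0) ∧
    ∀ D : Fin n → Derivation ℤ R.F R.F, Dual R D →
      (Matrix.of fun l k => D k (R.r (S.x' b l))).det ≠ 0 ∧
      ∃ v, _root_.KM.UnitOf (BR S R b) v ∧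
        R.r (Y.ω ^ Y.a) * ∏ i, R.r (S.d' b i) ^ (Y.a * Y.c i) =
          v * (Matrix.of fun l k => D k (R.r (S.x' b l))).det ^ (Y.a * Y.q) := by
  have h1 : Ev Y.t Y.y0 fun R => ∀ b l, S.x' b l ∈ R.Λ ∧ (∀ k, Y.D k (S.x' b l) ∈ R.Λ) ∧
      ∀ D' : Fin n → Derivation ℤ R.F R.F, Dual R D' → ∀ k,
        D' k (R.r (S.x' b l)) = R.r (Y.D k (S.x' b l)) :=
    Ev.all fun b => Ev.all fun l => dok_all h.ok.prim h.ok.Dt (S.x' b l)
  have h2 : Ev Y.t Y.y0 fun R => ∀ b, S.jac' b ∈ R.Λ ∧ (S.jac' b)⁻¹ ∈ R.Λ ∧ R.r (S.jac' b) ≠ 0 :=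
    Ev.all fun b => ev_ne (canL_jac_ne h b)
  have h3 : Ev Y.t Y.y0 fun R => ∀ b, _root_.KM.UnitOf (BR S R b)
      (R.r (Y.ω * (S.jac' b ^ Y.q)⁻¹ * ∏ i, S.d' b i ^ Y.c i)) :=
    Ev.all fun b => (ev_BR_unit S b (h.can b)).mono fun R hR => hR.2.2.2
  have h4 : Ev Y.t Y.y0 fun R => ∀ b i, S.d' b i ∈ R.Λ ∧ (S.d' b i)⁻¹ ∈ R.Λ ∧
      R.r (S.d' b i) ≠ 0 :=
    Ev.all fun b => Ev.all fun i => ev_ne (h.d'_ne b i)
  refine ((h1.and h2).and ((h3.and h4).and (ev_ne h.ok.ω_ne))).mono fun R hR b => ?_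
  obtain ⟨⟨hx, hj⟩, ⟨hU, hd⟩, hω⟩ := hR
  refine ⟨fun i => (hd b i).2.2, fun D hD => ?_⟩
  have e1 : (Matrix.of fun l k => D k (R.r (S.x' b l))).det = R.r (S.jac' b) := by
    rw [← Matrix.det_transpose]
    refine Eq.trans ?_ (r_det R (Matrix.of fun i l => Y.D i (S.x' b l))
      fun i l => (hx b l).2.1 i).2
    congr 1
    ext i l
    exact (hx b l).2.2 D hD i
  refine ⟨?_, R.r (Y.ω * (S.jac' b ^ Y.q)⁻¹ * ∏ i, S.d' b i ^ Y.c i) ^ Y.a, (hU b).pow _, ?_⟩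
  · rw [e1]
    exact (hj b).2.2
  · have h5 : (S.jac' b ^ Y.q)⁻¹ ∈ R.Λ := by
      rw [← inv_pow]
      exact R.Λ.pow_mem (hj b).2.1 _
    have h6 : R.r (S.jac' b ^ Y.q)⁻¹ = (R.r (S.jac' b) ^ Y.q)⁻¹ := by
      rw [← inv_pow, R.r_pow (hj b).2.1, R.r_inv (canL_jac_ne h b) (hj b).1 (hj b).2.1, inv_pow]
    have h7 := r_prod_pow R Finset.univ (fun i => S.d' b i) (fun i _ => (hd b i).1) Y.c
    have h8 : ∏ i, R.r (S.d' b i) ^ (Y.a * Y.c i) = (∏ i, R.r (S.d' b i) ^ Y.c i) ^ Y.a := by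
      rw [← Finset.prod_pow]
      exact Finset.prod_congr rfl fun i _ => by rw [← pow_mul, mul_comm]
    have h9 : R.r (S.jac' b) ^ (Y.a * Y.q) = (R.r (S.jac' b) ^ Y.q) ^ Y.a := by
      rw [← pow_mul, mul_comm]
    have h10 : R.r (S.jac' b) ^ Y.q ≠ 0 := pow_ne_zero _ (hj b).2.2
    rw [e1, R.r_mul (R.Λ.mul_mem hω.1 h5) h7.1, R.r_mul hω.1 h5, h6, h7.2, R.r_pow hω.1, h8, h9,
      ← mul_pow, ← mul_pow]
    congr 1
    field_simp

end Pool.Agent.Lib.MP_732f67_ag.T
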