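import Pool.Agent.Lib.MP_732f67_ag.G2.Defs
import Pool.Agent.Lib.MP_732f67_ag.T.Chart
import Pool.Agent.Lib.MP_732f67_ag.T.PB
import Pool.Agent.Lib.MP_732f67_ag.KC.GeoU

/-!
# Project KM: every transcendence basis of `E` is a p-basis at the reductions, with the change of the
Cartier operator
-/

set_option autoImplicit false

namespace Pool.Agent.Lib.MP_732f67_ag.T

open Pool.Agent.KM
open Pool.Agent.Lib.MP_732f67_ag.KC (IsPB Ref ev2)

variable {E : Type} [Field E] [Algebra ℂ E] {n : ℕ} {t : Fin n → E} {y : E}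

/-- the values of polynomials in the ring generated by the coordinates and the primitive element -/
theorem chF_ev_mem (x : Fin n → E) (y : E) (p : Polynomial (MvPolynomial (Fin n) ℂ)) :
    ev x y p ∈ Algebra.adjoin ℂ (Set.range x ∪ {y}) := by
  unfold ev
  rw [Polynomial.eval₂_eq_sum_range]
  refine sum_mem fun i _ => mul_mem ?_ (pow_mem (Algebra.subset_adjoin (by simp)) i)
  refine Algebra.adjoin_mono Set.subset_union_left ?_
  rw [Algebra.adjoin_range_eq_range_aeval]
  exact ⟨p.coeff i, rfl⟩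

/-- `E` is generated by `t` and `y` -/
theorem chF_top (h : Prim t y) :
    IntermediateField.adjoin ℂ (Set.range t ∪ {y}) = ⊤ := by
  rw [eq_top_iff]
  intro z _
  obtain ⟨q, g, hq, hg⟩ := h.gen z
  have h0 : MvPolynomial.aeval t q ≠ 0 := by
    rw [Ne, ← map_zero (MvPolynomial.aeval t : MvPolynomial (Fin n) ℂ →ₐ[ℂ] E)]
    exact fun e => hq (h.basis.1 e)
  have h1 : z = ev t y g / ev t y (Polynomial.C q) := by
    have h2 : ev t y (Polynomial.C q) = MvPolynomial.aeval t q := by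
      unfold ev
      rw [Polynomial.eval₂_C]
      rfl
    rw [h2, eq_div_iff h0, mul_comm]
    exact hg
  rw [h1]
  exact div_mem (IntermediateField.algebra_adjoin_le_adjoin ℂ _ (chF_ev_mem t y g))
    (IntermediateField.algebra_adjoin_le_adjoin ℂ _ (chF_ev_mem t y _))

/-- every transcendence basis is a system of coordinates of a standard étale chart

PROOF. `exists_prim hx G` for a finite set `G` of generators of `E` (for `h : Prim t y`:
`G = {y} ∪ range t` generates `E` as a field) gives a primitive element `w`, integral over `ℂ[x]`, with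
the monic irreducible `f`; `u := (f'(x, w))⁻¹`, `A := ℂ[x, w, u]`; see `IsCh`. -/
theorem exists_chart (h : Prim t y) {x : Fin n → E} (hx : IsTranscendenceBasis ℂ x) :
    ∃ (A : Subalgebra ℂ E) (w u : E), IsCh A x w u := by
  classical
  obtain ⟨G, hG⟩ := Set.Finite.exists_finset_coe
    ((Set.finite_range t).union (Set.finite_singleton y))
  obtain ⟨w, hw⟩ := exists_prim hx G (by rw [hG]; exact chF_top h)
  obtain ⟨f, hf1, hf2, hf3, hf4, U, V, D, hD, hUV⟩ := hw.int
  have hf0 : ev x w f = 0 := hf3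
  have hd : ev x w f.derivative ≠ 0 := prim_der hx.1 hf0 hD hUV
  have hmul : ∀ a b : Polynomial (MvPolynomial (Fin n) ℂ),
      ev x w (a * b) = ev x w a * ev x w b := by
    intro a b
    unfold ev
    exact Polynomial.eval₂_mul _ _
  have hprime : Prime f := by
    refine ⟨hf1.ne_zero, fun hu => ?_, fun a b hab => ?_⟩
    · exact hf2.ne' (by rw [hf1.isUnit_iff.1 hu, Polynomial.natDegree_one])
    · obtain ⟨c, hc⟩ := hab
      have h1 : ev x w a * ev x w b = 0 := by rw [← hmul, hc, hmul, hf0, zero_mul]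
      rcases mul_eq_zero.1 h1 with h2 | h2
      · exact Or.inl (hf4 a h2)
      · exact Or.inr (hf4 b h2)
  refine ⟨Algebra.adjoin ℂ (Set.range x ∪ {w, (ev x w f.derivative)⁻¹}), w,
    (ev x w f.derivative)⁻¹, ?_⟩
  refine ⟨hx, ⟨f, hf1, hprime.irreducible, hf0, hd,
    Algebra.subset_adjoin (Or.inr (Or.inr rfl))⟩, inv_ne_zero hd, ?_, rfl, fun a => ?_⟩
  · rw [inv_inv]
    exact chF_ev_mem x w _
  · obtain ⟨q, g, hq, hg⟩ := hw.gen a
    have h0 : MvPolynomial.aeval x q ≠ 0 := by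
      rw [Ne, ← map_zero (MvPolynomial.aeval x : MvPolynomial (Fin n) ℂ →ₐ[ℂ] E)]
      exact fun e => hq (hx.1 e)
    have h2 : ev x w (Polynomial.C q) = MvPolynomial.aeval x q := by
      unfold ev
      rw [Polynomial.eval₂_C]
      rfl
    refine ⟨ev x w g, chF_ev_mem x w g, ev x w (Polynomial.C q), chF_ev_mem x w _, ?_, ?_⟩
    · rw [h2]
      exact h0
    · rw [h2, eq_div_iff h0, mul_comm]
      exact hg

/-- **the change of the p-basis**

PROOF. `exists_chart`, `ev_isCh` for it; then as in the proof of `Geo.frob` (KC/GeoF) and `Geo.gp`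
(KC/GeoU): `exists_frob` gives a Frobenius lift of `R.R2` with `F (r2 (x l)) = (r2 (x l)) ^ p`;
`IsPB p (r x)` as in `Geo.et` (KC/GeoA: `EtCh` at the reduction) and `EtCh.isPB`; `tr_change` with
`tt k = r2 (t k)`, `π = R.π`, `Lift2 = ⟨R.surj, R.ker, R.flat⟩`; `IsPB p (r t)` is `ev_pb h`. -/
theorem ev_change (h : Prim t y) {x : Fin n → E} (hx : IsTranscendenceBasis ℂ x) :
    Ev t y fun R => (∀ i, x i ∈ R.Λ) ∧ IsPB R.p (fun i => R.r (x i)) ∧
      ∀ (D : Fin n → Derivation ℤ R.F R.F) (Tr : R.F →+ R.F), Ref R.p D (fun k => R.r (t k)) Tr →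
        ∃ (D' : Fin n → Derivation ℤ R.F R.F) (Tr' : R.F →+ R.F),
          Ref R.p D' (fun i => R.r (x i)) Tr' ∧
          ∀ g, Tr ((Matrix.of fun l k => D k (R.r (x l))).det * g) =
            (Matrix.of fun l k => D k (R.r (x l))).det * Tr' g := by
  obtain ⟨A, w, u, hA⟩ := exists_chart h hx
  refine ((ev_isCh h.basis hA).and (ev_pb h)).mono fun R hR => ?_
  obtain ⟨⟨hxm, hwm, hum, f, hm, hdeg, hroot, ⟨v, hv, hv1⟩, ⟨v', hv', hv1'⟩, hind, hgen⟩, hpb⟩ := hR
  have hL : KC.Lift2 R.p R.π := ⟨R.surj, R.ker, R.flat⟩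
  have hD : R.π (ev2 (fun i => R.r2 (x i)) (R.r2 w) f.derivative) ≠ 0 := by
    intro h0
    have h1 := congrArg R.π hv1'
    rw [map_mul, h0, mul_zero, map_one] at h1
    exact zero_ne_one h1
  have hev : ∀ g : Polynomial (MvPolynomial (Fin n) ℤ),
      R.π (ev2 (fun i => R.r2 (x i)) (R.r2 w) g) = ev2 (fun i => R.r (x i)) (R.r w) g :=
    fun g => map_ev2 R.π _ _ g
  have hD' : ev2 (fun i => R.r (x i)) (R.r w) f.derivative ≠ 0 := by
    rw [← hev]
    exact hD
  have hch : KC.EtCh R.p (Subring.closure (Set.range (fun i => R.r (x i)) ∪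
      {R.r w, (ev2 (fun i => R.r (x i)) (R.r w) f.derivative)⁻¹})) (fun i => R.r (x i)) (R.r w)
      (ev2 (fun i => R.r (x i)) (R.r w) f.derivative)⁻¹ f := by
    refine ⟨hm, ?_, hD', Subring.subset_closure (Or.inr (Or.inr rfl)), inv_ne_zero hD', ?_, rfl,
      ?_, ?_⟩
    · rw [← hev, hroot, map_zero]
    · rw [inv_inv]
      exact KC.gA_ev2_mem _ _ _
    · intro P hP
      have h1 : (Polynomial.C P).degree < f.degree :=
        lt_of_le_of_lt Polynomial.degree_C_le (Polynomial.natDegree_pos_iff_degree_pos.1 hdeg)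
      have h2 : R.π (ev2 (fun i => R.r2 (x i)) (R.r2 w) (Polynomial.C P)) = 0 := by
        rw [hev, ev2, Polynomial.eval₂_C]
        exact hP
      obtain ⟨Q, hQ⟩ := hind _ h1 h2
      refine ⟨Q.coeff 0, ?_⟩
      have := congrArg (fun q => Polynomial.coeff q 0) hQ
      simpa using this
    · intro c
      obtain ⟨P, Q, hQ, hc⟩ := hgen c
      rw [hev] at hQ
      rw [hev, hev] at hc
      exact ⟨_, KC.gA_ev2_mem _ _ P, _, KC.gA_ev2_mem _ _ Q, hQ, eq_div_of_mul_eq hQ hc⟩
  refine ⟨hxm, hch.isPB, fun D Tr hr => ?_⟩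
  obtain ⟨F, hF, hFx⟩ := KC.exists_frob hL (fun i => R.r2 (x i)) (R.r2 w) f hm hroot hD hind hgen
  exact KC.tr_change hL hpb hr (tt := fun k => R.r2 (t k)) (fun k => rfl) hF hFx hch.isPB

end Pool.Agent.Lib.MP_732f67_ag.T
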