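import Pool.Agent.Lib.MP_732f67_ag.T2.ChF
import Pool.Agent.Lib.MP_732f67_ag.KC.GeoU

/-!
# Project KM: the charts of `L` at the reductions
-/

set_option autoImplicit false

namespace Pool.Agent.Lib.MP_732f67_ag.T

open Pool.Agent.KM
open Pool.Agent.Lib.MP_732f67_ag.KC (IsPB PBA Ref ev2 EtCh mon)

section core

variable {F : Type} [Field F] {p : ℕ} [Fact p.Prime] [CharP F p] [Algebra (ZMod p) F]
  {n : ℕ} {M : Subfield F} {x : Fin n → F} {w u : F} {f : Polynomial (MvPolynomial (Fin n) ℤ)}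

/-- the chart inside the subfield `M` -/
private theorem chL_et (hind : AlgebraicIndependent (ZMod p) x) (hm : f.Monic)
    (hroot : ev2 x w f = 0) (hder : ev2 x w f.derivative ≠ 0)
    (hderi : (ev2 x w f.derivative)⁻¹ ∈ Subring.closure (Set.range x ∪ {w, u})) (hu : u ≠ 0)
    (hui : u⁻¹ ∈ Subring.closure (Set.range x ∪ {w})) (hxM : ∀ i, x i ∈ M) (hwM : w ∈ M)
    (huM : u ∈ M) (hgen : M ≤ Subfield.closure (Set.range x ∪ {w})) :
    EtCh p ((Subring.closure (Set.range x ∪ {w, u})).comap M.subtype)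
      (fun i => (⟨x i, hxM i⟩ : M)) ⟨w, hwM⟩ ⟨u, huM⟩ f := by
  have hinj : Function.Injective M.subtype := M.subtype.injective
  have hev : ∀ g : Polynomial (MvPolynomial (Fin n) ℤ),
      M.subtype (ev2 (fun i => (⟨x i, hxM i⟩ : M)) ⟨w, hwM⟩ g) = ev2 x w g :=
    fun g => map_ev2 M.subtype _ _ g
  have hr1 : M.subtype '' (Set.range (fun i => (⟨x i, hxM i⟩ : M)) ∪ {⟨w, hwM⟩}) =
      Set.range x ∪ {w} := by
    rw [Set.image_union, Set.image_singleton, ← Set.range_comp]
    rfl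
  have hr2 : M.subtype '' (Set.range (fun i => (⟨x i, hxM i⟩ : M)) ∪ {⟨w, hwM⟩, ⟨u, huM⟩}) =
      Set.range x ∪ {w, u} := by
    rw [Set.image_union, Set.image_pair, ← Set.range_comp]
    rfl
  have hB : (Subring.closure (Set.range (fun i => (⟨x i, hxM i⟩ : M)) ∪ {⟨w, hwM⟩})).map
      M.subtype = Subring.closure (Set.range x ∪ {w}) := by
    rw [RingHom.map_closure, hr1]
  have hA : (Subring.closure (Set.range (fun i => (⟨x i, hxM i⟩ : M)) ∪
      {⟨w, hwM⟩, ⟨u, huM⟩})).map M.subtype = Subring.closure (Set.range x ∪ {w, u}) := by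
    rw [RingHom.map_closure, hr2]
  refine ⟨hm, ?_, ?_, ?_, ?_, ?_, ?_, ?_, ?_⟩
  · apply hinj
    rw [hev, hroot, map_zero]
  · intro h
    apply hder
    rw [← hev, h, map_zero]
  · rw [Subring.mem_comap, map_inv₀, hev]
    exact hderi
  · intro h
    exact hu (congrArg Subtype.val h)
  · rw [← hB] at hui
    obtain ⟨v, hv, hvu⟩ := hui
    have h1 : v = (⟨u, huM⟩ : M)⁻¹ := by
      apply hinj
      rw [map_inv₀]
      exact hvu
    rw [← h1]
    exact hv
  · rw [← hA, Subring.comap_map_eq_self_of_injective hinj]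
  · intro P hP
    have h1 : MvPolynomial.aeval x P = 0 := by
      have h2 := congrArg M.subtype hP
      rw [map_zero] at h2
      rw [← h2]
      have h3 := hev (Polynomial.C P)
      rw [ev2, ev2, Polynomial.eval₂_C, Polynomial.eval₂_C] at h3
      exact h3.symm
    have h2 : MvPolynomial.aeval x (MvPolynomial.map (Int.castRingHom (ZMod p)) P) = 0 := by
      rw [← h1, MvPolynomial.aeval_def, MvPolynomial.aeval_def, MvPolynomial.eval₂_map]
      congr 1
      exact RingHom.ext_int _ _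
    have h3 : MvPolynomial.map (Int.castRingHom (ZMod p)) P = 0 := by
      rw [← map_zero (MvPolynomial.aeval x : MvPolynomial (Fin n) (ZMod p) →ₐ[ZMod p] F)] at h2
      exact hind h2
    obtain ⟨Q, hQ⟩ := (MvPolynomial.C_dvd_iff_zmod p P).2 h3
    refine ⟨Q, ?_⟩
    rw [hQ]
    simp
  · intro a
    obtain ⟨b, hb, c, hc, hbc⟩ := Subfield.mem_closure_iff.1 (hgen a.2)
    rw [← hB] at hb hc
    obtain ⟨b', hb', rfl⟩ := hb
    obtain ⟨c', hc', rfl⟩ := hc
    by_cases h0 : c' = 0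
    · refine ⟨0, Subring.zero_mem _, 1, Subring.one_mem _, one_ne_zero, ?_⟩
      apply hinj
      rw [zero_div, map_zero]
      rw [h0, map_zero, div_zero] at hbc
      exact hbc.symm
    · refine ⟨b', hb', c', hc', h0, ?_⟩
      apply hinj
      rw [map_div₀]
      exact hbc.symm

private theorem chL_core (hind : AlgebraicIndependent (ZMod p) x) (hm : f.Monic)
    (hroot : ev2 x w f = 0) (hder : ev2 x w f.derivative ≠ 0)
    (hderi : (ev2 x w f.derivative)⁻¹ ∈ Subring.closure (Set.range x ∪ {w, u})) (hu : u ≠ 0)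
    (hui : u⁻¹ ∈ Subring.closure (Set.range x ∪ {w})) (hxM : ∀ i, x i ∈ M) (hwM : w ∈ M)
    (huM : u ∈ M) (hgen : M ≤ Subfield.closure (Set.range x ∪ {w})) :
    PBA p (Subring.closure (Set.range x ∪ {w, u})) x ∧
      (∀ a ∈ Subring.closure (Set.range x ∪ {w, u}), a ∈ M) ∧
      ∀ a ∈ M, IsIntegral (Subring.closure (Set.range x ∪ {w, u})) a →
        a ∈ Subring.closure (Set.range x ∪ {w, u}) := by
  have hinj : Function.Injective M.subtype := M.subtype.injective
  have : CharP M p := M.subtype.charP hinj p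
  have h := chL_et hind hm hroot hder hderi hu hui hxM hwM huM hgen
  obtain ⟨B, hB⟩ : ∃ B, B = Subring.closure (Set.range x ∪ {w, u}) := ⟨_, rfl⟩
  rw [← hB] at h ⊢
  have hBM : ∀ a ∈ B, a ∈ M := by
    have h1 : B ≤ M.toSubring := by
      rw [hB, Subring.closure_le]
      rintro a (⟨i, rfl⟩ | rfl | rfl)
      · exact hxM i
      · exact hwM
      · exact huM
    exact fun a ha => h1 ha
  have hxB : ∀ i, x i ∈ B := fun i => by
    rw [hB]
    exact Subring.subset_closure (Or.inl ⟨i, rfl⟩)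
  refine ⟨⟨hxB, fun a ha => ?_⟩, hBM, fun a ha hi => ?_⟩
  · obtain ⟨c, hc, hac⟩ := h.pba.span (⟨a, hBM a ha⟩ : M) ha
    refine ⟨fun α => (c α : F), fun α => hc α, ?_⟩
    have h1 := congrArg M.subtype hac
    rw [map_sum] at h1
    refine Eq.trans h1 (Finset.sum_congr rfl fun α _ => ?_)
    rw [map_mul, map_pow, mon, mon, map_prod]
    congr 1
  · obtain ⟨D, Tr, hr, -⟩ := KC.exists_ref h.isPB
    have : IsNoetherianRing (B.comap M.subtype) := by
      rw [h.A_eq]
      exact is_noetherian_subring_closure _ ((Set.finite_range _).union (Set.toFinite _))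
    have hfr : ∀ a : M, ∃ b ∈ B.comap M.subtype, b ≠ 0 ∧ a * b ∈ B.comap M.subtype := by
      intro a
      obtain ⟨b, hb, c, hc, hc0, habc⟩ := h.gen a
      have hle : Subring.closure (Set.range (fun i => (⟨x i, hxM i⟩ : M)) ∪ {⟨w, hwM⟩}) ≤
          B.comap M.subtype := by
        rw [h.A_eq]
        refine Subring.closure_mono ?_
        rintro z (hz | hz)
        · exact Or.inl hz
        · exact Or.inr (Or.inl hz)
      refine ⟨c, hle hc, hc0, ?_⟩
      rw [habc, div_mul_cancel₀ _ hc0]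
      exact hle hb
    have hint : IsIntegral (B.comap M.subtype) (⟨a, ha⟩ : M) := by
      obtain ⟨P, hPm, hP⟩ := hi
      let φ : B →+* B.comap M.subtype :=
        { toFun := fun b => ⟨⟨b, hBM b b.2⟩, b.2⟩
          map_one' := rfl
          map_mul' := fun _ _ => rfl
          map_zero' := rfl
          map_add' := fun _ _ => rfl }
      refine ⟨P.map φ, hPm.map φ, ?_⟩
      apply hinj
      rw [Polynomial.eval₂_map, Polynomial.hom_eval₂, map_zero]
      exact hP
    exact KC.pba_closed h.isPB h.pba hr hfr hint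

end core

variable {E : Type} [Field E] [Algebra ℂ E] {n : ℕ} {I : Type} [Fintype I] {Y : AtD E n I}

/-- the ring of the chart `b` of `L` at the reduction -/
def BR (S : AtL Y) (R : Red E Y.t Y.y0) (b : Fin S.k') : Subring R.F :=
  Subring.closure (Set.range (fun l => R.r (S.x' b l)) ∪ {R.r (S.y' b), R.r (S.u' b)})

/-- elements of the ring of the chart `b`

PROOF. `ev_adjoin` for the finite set of generators. -/
theorem ev_BR (S : AtL Y) (b : Fin S.k') {z : E} (hz : z ∈ S.A' b) :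
    Ev Y.t Y.y0 fun R => z ∈ R.Λ ∧ R.r z ∈ BR S R b := by
  classical
  obtain ⟨G, hG⟩ := Set.Finite.exists_finset_coe
    ((Set.finite_range (S.x' b)).union ((Set.finite_singleton (S.u' b)).insert (S.y' b)))
  have hz' : z ∈ Algebra.adjoin ℂ (G : Set E) := by
    rw [hG]
    exact hz
  refine (ev_adjoin G hz').mono fun R hR => ⟨hR.2.1, ?_⟩
  have h1 := hR.2.2.2
  rw [hG, Set.image_union, Set.image_pair, ← Set.range_comp] at h1
  exact h1

/-- units of the ring of the chart `b` -/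
theorem ev_BR_unit (S : AtL Y) (b : Fin S.k') {z : E} (hz : Un (S.A' b) z) :
    Ev Y.t Y.y0 fun R => z ∈ R.Λ ∧ z⁻¹ ∈ R.Λ ∧ R.r z ≠ 0 ∧
      _root_.KM.UnitOf (BR S R b) (R.r z) := by
  refine ((ev_BR S b hz.2.1).and (ev_BR S b hz.2.2)).mono fun R hR => ?_
  have h1 := R.r_ne hz.1 hR.1.1 hR.2.1
  refine ⟨hR.1.1, hR.2.1, h1, h1, hR.1.2, ?_⟩
  rw [← R.r_inv hz.1 hR.1.1 hR.2.1]
  exact hR.2.2

/-- the coordinates of a chart of `L` are a transcendence basis of `E`

PROOF. They are `n` algebraically independent elements, and `E` has transcendence degree `n`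
(`S.Ok.ok.prim.basis`). -/
theorem x'_basis {S : AtL Y} (h : S.Ok) (b : Fin S.k') : IsTranscendenceBasis ℂ (S.x' b) := by
  refine (h.ch b).ind.isTranscendenceBasis_of_trdeg_le_of_finite ?_
  rw [← h.ok.prim.basis.cardinalMk_eq_trdeg]

/-- **the charts of `L` at the reductions are standard étale over `Lp R yL`**

PROOF. Let `M = Lp R yL`. Hypothesis `hM`: for all finite sets of elements of `L` the reductions are
in `M` (from T2/Deg.lean of helper26; here a hypothesis on `Ev`). Work in the field `M`: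
`KC.EtCh p A x y u f` with `A = (BR S R b).comap M.subtype`, `x l = ⟨R.r (x' b l), _⟩` etc., and `f` the
lift to `ℤ` of the polynomial of `IsChL.pol` (`lift_poly`): `root`, `der_ne`, `der_inv` by reduction
(`ev_BR` for `(ev x y f')⁻¹`); `u_inv` by `ev_adjoin`; `ind`: `ev_trans` for `x'_basis` (as in
`Geo.et`); `gen`: the elements of `M` which are quotients of elements of `B0 = 𝔽_p[r x', r y']`
(denominator not zero) form a subfield; it contains the prime field, the `r (t i)` and `r yL`,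
because `t i = b / c` with `b, c ∈ ℂ[x', y']` (`IsChL.gen`), and `r b, r c ∈ B0` (`ev_adjoin`),
`r c ≠ 0`. Then `EtCh.pba` in `M`, transported to `R.F` (`x ∈ BR` iff it is the image of an element of
`A`, as all generators are in `M`), and `EtCh.isPB`, `exists_ref`, `pba_closed` in `M` (KC/HHLoc;
`A` is noetherian: `is_noetherian_subring_closure` for the finite set of generators) for the last
statement: `x ∈ M` integral over `BR` in `R.F` is integral over `A` in `M`. -/
theorem ev_chL {S : AtL Y} (h : S.Ok)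
    (hM : ∀ x ∈ S.L, Ev Y.t Y.y0 fun R => R.r x ∈ Lp R S.yL) :
    Ev Y.t Y.y0 fun R => ∀ b, PBA R.p (BR S R b) (fun l => R.r (S.x' b l)) ∧
      (∀ x ∈ BR S R b, x ∈ Lp R S.yL) ∧
      ∀ x ∈ Lp R S.yL, IsIntegral (BR S R b) x → x ∈ BR S R b := by
  classical
  refine Ev.all fun b => ?_
  have hC := h.ch b
  obtain ⟨f, hf1, -, hf2, hf3, hf4⟩ := hC.pol
  obtain ⟨G, hG⟩ := Set.Finite.exists_finset_coe
    ((Set.finite_range (S.x' b)).union (Set.finite_singleton (S.y' b)))
  have hGr : ∀ R : Red E Y.t Y.y0, R.r '' (G : Set E) =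
      Set.range (fun l => R.r (S.x' b l)) ∪ {R.r (S.y' b)} := by
    intro R
    rw [hG, Set.image_union, Set.image_singleton, ← Set.range_comp]
    rfl
  -- elements of `ℂ[x', y']`
  have hadj : ∀ z ∈ Algebra.adjoin ℂ (Set.range (S.x' b) ∪ {S.y' b}),
      Ev Y.t Y.y0 fun R => z ∈ R.Λ ∧
        R.r z ∈ Subring.closure (Set.range (fun l => R.r (S.x' b l)) ∪ {R.r (S.y' b)}) := by
    intro z hz
    rw [← hG] at hz
    refine (ev_adjoin G hz).mono fun R hR => ⟨hR.2.1, ?_⟩
    rw [← hGr]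
    exact hR.2.2.2
  have huL : S.u' b ∈ S.L := by
    have h1 : Algebra.adjoin ℂ (Set.range (S.x' b) ∪ {S.y' b}) ≤ S.L.toSubalgebra := by
      refine Algebra.adjoin_le ?_
      rintro a (⟨i, rfl⟩ | rfl)
      · exact hC.x_mem i
      · exact hC.y_mem
    have h2 := S.L.inv_mem (h1 hC.u_inv)
    rw [inv_inv] at h2
    exact h2
  have hgen : ∀ z ∈ S.L, Ev Y.t Y.y0 fun R => R.r z ∈
      Subfield.closure (Set.range (fun l => R.r (S.x' b l)) ∪ {R.r (S.y' b)}) := by
    intro z hz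
    obtain ⟨c, hc, d, hd, hd0, hz'⟩ := hC.gen z hz
    refine (((hadj c hc).and (hadj d hd)).and ((ev_ne (t := Y.t) (y := Y.y0) hd0).and
      (ev_mem z))).mono fun R hR => ?_
    obtain ⟨⟨⟨hc1, hc2⟩, hd1, hd2⟩, ⟨-, -, hd3⟩, hz1⟩ := hR
    have h3 : R.r z * R.r d = R.r c := by
      rw [← R.r_mul hz1 hd1, hz', div_mul_cancel₀ _ hd0]
    rw [Subfield.mem_closure_iff]
    exact ⟨_, hc2, _, hd2, (eq_div_of_mul_eq hd3 h3).symm⟩
  have e1 := Ev.all (t := Y.t) (y := Y.y0) fun i => ev_mem (S.x' b i)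
  have e2 : Ev Y.t Y.y0 fun R => S.y' b ∈ R.Λ := ev_mem _
  have e3 := ev_ne (t := Y.t) (y := Y.y0) hC.u_ne
  have e4 := ev_BR S b hf4
  have e5 := lift_poly (t := Y.t) (y := Y.y0) f
  have e6 := hadj _ hC.u_inv
  have e7 := ev_trans (y := Y.y0) h.ok.prim.basis (x'_basis h b)
  have e8 := Ev.all (t := Y.t) (y := Y.y0) fun i => hM _ (hC.x_mem i)
  have e9 := (hM _ hC.y_mem).and (hM _ huL)
  have e10 := (Ev.all (t := Y.t) (y := Y.y0) fun i => hgen _ (h.prim.t_mem i)).and
    (hgen _ h.prim.y_mem)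
  refine ((((e1.and e2).and (e3.and e4)).and ((e5.and e6).and (e7.and e8))).and
    (e9.and e10)).mono fun R hR => ?_
  obtain ⟨⟨⟨⟨hx, hw⟩, ⟨hu1, hu2, hu3⟩, hd1, hd2⟩, ⟨⟨fZ, hfZ, hval⟩, -, hui⟩, ⟨-, htr⟩, hxM⟩,
    ⟨hwM, huM⟩, htM, hyM⟩ := hR
  obtain ⟨hm, -⟩ := hfZ hf1
  obtain ⟨⟨hv1, hv2⟩, hv3, hv4⟩ := hval _ _ hx hw
  have hπ : ∀ g : Polynomial (MvPolynomial (Fin n) ℤ),
      R.π (ev2 (fun i => R.r2 (S.x' b i)) (R.r2 (S.y' b)) g) =
        ev2 (fun i => R.r (S.x' b i)) (R.r (S.y' b)) g := fun g => map_ev2 R.π _ _ g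
  have hroot : ev2 (fun i => R.r (S.x' b i)) (R.r (S.y' b)) fZ = 0 := by
    rw [← hπ, ← hv2, hf2, R.r2_zero, map_zero]
  have hder : ev2 (fun i => R.r (S.x' b i)) (R.r (S.y' b)) fZ.derivative =
      R.r (ev (S.x' b) (S.y' b) f.derivative) := by
    rw [← hπ, ← hv4]
    rfl
  refine chL_core htr.1 hm hroot ?_ ?_ hu3 ?_ hxM hwM huM ?_
  · rw [hder]
    exact R.r_ne hf3 hv3 hd1
  · rw [hder, ← R.r_inv hf3 hv3 hd1]
    exact hd2
  · rw [← R.r_inv hC.u_ne hu1 hu2]
    exact hui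
  · rw [Lp, Subfield.closure_le]
    rintro a (⟨c, rfl⟩ | rfl | ⟨i, rfl⟩)
    · obtain ⟨k, rfl⟩ := ZMod.intCast_surjective c
      rw [map_intCast]
      exact intCast_mem _ k
    · exact hyM
    · exact htM i

end Pool.Agent.Lib.MP_732f67_ag.T
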