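import Pool.Agent.Lib.MP_732f67_ag.T2.ChL
import Pool.Agent.Lib.MP_732f67_ag.T.AtGe
import Pool.Agent.Lib.MP_732f67_ag.T.GeoR

/-!
# Project KM: the certificates at the reductions
-/

set_option autoImplicit false

namespace Pool.Agent.Lib.MP_732f67_ag.T

open Pool.Agent.KM
open Pool.Agent.Lib.MP_732f67_ag.KC (AJ EP)

variable {E : Type} [Field E] [Algebra ℂ E] {n : ℕ} {I : Type} [Fintype I] {Y : AtD E n I}

/-- the part of the boundary outside the charts of `L` is contracted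

PROOF. Copy of `ev_cod` (T/AtGe): finitely many tuples; `AtL.Ok.cod`, `lift_mv_ne`, `ev_div`,
`ev_AR` for `w₀` and the `w e`, `e ∈ H a`; `KC.EP (r x) co a = r (∏ j, Y.ε a j)` (`geoR_eps` and the
argument of `ev_ep` in T/PolCan). -/
theorem ev_codL {S : AtL Y} (h : S.Ok) {g : Fin Y.k → I → E}
    (hg : ∀ a i, g a i ∈ Y.S i ∧ Un (Y.A a) (g a i * Y.d a i ^ Y.m)) :
    Ev Y.t Y.y0 fun R => ∀ a, ∀ r : Fin (n - 1) → R.F,
      (∀ k, ∃ i, ∃ s ∈ Y.S i, r k = R.r s / R.r (g a i)) →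
      ∃ P : MvPolynomial (Fin (n - 1)) (KR R), P ≠ 0 ∧
        ∃ w₀ ∈ AJ (fun j => R.r (Y.z j)) Y.σ {a}, ∃ w : E × Fin S.k' → R.F,
          (∀ e ∈ S.H a, w e ∈ AJ (fun j => R.r (Y.z j)) Y.σ {a}) ∧
          MvPolynomial.aeval r P = EP (fun a i => R.r (Y.x a i)) Y.co a * w₀ +
            ∑ e ∈ S.H a, R.r e.1 * w e := by
  have hg0 : ∀ a i, g a i ≠ 0 := fun a i => left_ne_zero_of_mul (hg a i).2.1
  have e1 : Ev Y.t Y.y0 fun R => ∀ a, ∀ q : Fin (n - 1) → (Σ i, Y.S i),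
      ∃ P : MvPolynomial (Fin (n - 1)) (KR R), P ≠ 0 ∧
        ∃ w₀ ∈ AJ (fun j => R.r (Y.z j)) Y.σ {a}, ∃ w : E × Fin S.k' → R.F,
          (∀ e ∈ S.H a, w e ∈ AJ (fun j => R.r (Y.z j)) Y.σ {a}) ∧
          MvPolynomial.aeval (fun k => R.r (((q k).2 : E)) / R.r (g a (q k).1)) P =
            EP (fun a i => R.r (Y.x a i)) Y.co a * w₀ + ∑ e ∈ S.H a, R.r e.1 * w e := by
    refine Ev.all fun a => Ev.all fun q => ?_
    obtain ⟨P, hP, w₀, hw₀, w, hw, he⟩ := h.cod a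
      (fun k => ((q k).2 : E) / g a (q k).1)
      fun k => ⟨(q k).1, (q k).2, (q k).2.2, g a (q k).1, (hg a _).1, (hg a _).2, rfl⟩
    have f1 := lift_mv_ne (t := Y.t) (y := Y.y0) hP
    have f2 : Ev Y.t Y.y0 fun R => ∀ k, ((q k).2 : E) / g a (q k).1 ∈ R.Λ ∧
        R.r (g a (q k).1) ≠ 0 ∧
        R.r (((q k).2 : E) / g a (q k).1) = R.r ((q k).2 : E) / R.r (g a (q k).1) :=
      Ev.all fun k => ev_div ((q k).2 : E) (hg0 a (q k).1)
    have f3 : Ev Y.t Y.y0 fun R => ∀ j, Y.ε a j ∈ R.Λ := Ev.all fun j => ev_mem _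
    have f4 : Ev Y.t Y.y0 fun R => w₀ ∈ R.Λ ∧ R.r w₀ ∈ AJ (fun j => R.r (Y.z j)) Y.σ {a} :=
      (ev_AR h.ok.z_ne Y.σ {a} (by
        rw [← chA_eq_AR]
        exact hw₀)).mono fun R hR => ⟨hR.1, hR.2.2⟩
    have f5 : Ev Y.t Y.y0 fun R => ∀ e ∈ S.H a, e.1 ∈ R.Λ ∧ w e ∈ R.Λ ∧
        R.r (w e) ∈ AJ (fun j => R.r (Y.z j)) Y.σ {a} :=
      Ev.all_mem (S.H a) fun e _ => ((ev_mem e.1).and (ev_AR h.ok.z_ne Y.σ {a} (by
        rw [← chA_eq_AR]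
        exact hw e))).mono fun R hR => ⟨hR.1, hR.2.1, hR.2.2.2⟩
    refine ((f1.and f2).and ((f3.and (ev_ep Y)).and (f4.and f5))).mono fun R hR => ?_
    obtain ⟨⟨⟨P', hP', hv⟩, hdiv⟩, ⟨hε, hep⟩, ⟨hw1, hw2⟩, hw3⟩ := hR
    refine ⟨P', hP', R.r w₀, hw2, fun e => R.r (w e), fun e he => (hw3 e he).2.2, ?_⟩
    have h1 := (hv _ fun k => (hdiv k).1).2
    have h2 : EP (fun a i => R.r (Y.x a i)) Y.co a = R.r (∏ j, Y.ε a j) := by
      rw [R.r_prod _ _ fun j _ => hε j]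
      exact Finset.prod_congr rfl fun j _ => by rw [hep, ep_eq]
    have h3 : ∏ j, Y.ε a j ∈ R.Λ := R.Λ.prod_mem fun j _ => hε j
    have h4 : ∑ e ∈ S.H a, e.1 * w e ∈ R.Λ :=
      R.Λ.sum_mem fun e he => R.Λ.mul_mem (hw3 e he).1 (hw3 e he).2.1
    rw [he, R.r_add (R.Λ.mul_mem h3 hw1) h4, R.r_mul h3 hw1,
      R.r_sum _ _ fun e he => R.Λ.mul_mem (hw3 e he).1 (hw3 e he).2.1,
      Finset.sum_congr rfl fun e he => R.r_mul (hw3 e he).1 (hw3 e he).2.1, ← h2] at h1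
    rw [← h1]
    congr 2
    funext k
    exact (hdiv k).2.2.symm
  refine e1.mono fun R hR a r hr => ?_
  choose i s hs hrk using hr
  obtain ⟨P, hP, w₀, hw₀, w, hw, he⟩ := hR a (fun k => ⟨i k, s k, hs k⟩)
  refine ⟨P, hP, w₀, hw₀, w, hw, ?_⟩
  rw [← he]
  congr 2
  funext k
  exact hrk k

/-- elements with denominator a power of `h` form a ring -/
theorem codL_loc {F : Type*} [Field F] {B : Subring F} {h : F} (hh : h ∈ B) {s : Set F}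
    (hs : ∀ f ∈ s, ∃ N : ℕ, f * h ^ N ∈ B) {f : F} (hf : f ∈ Subring.closure s) :
    ∃ N : ℕ, f * h ^ N ∈ B := by
  induction hf using Subring.closure_induction with
  | mem x hx => exact hs x hx
  | zero => exact ⟨0, by rw [zero_mul]; exact B.zero_mem⟩
  | one => exact ⟨0, by rw [pow_zero, one_mul]; exact B.one_mem⟩
  | add x y _ _ hx hy =>
    obtain ⟨N, hN⟩ := hx
    obtain ⟨M, hM⟩ := hy
    refine ⟨N + M, ?_⟩
    have e : (x + y) * h ^ (N + M) = x * h ^ N * h ^ M + y * h ^ M * h ^ N := by ring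
    rw [e]
    exact B.add_mem (B.mul_mem hN (B.pow_mem hh M)) (B.mul_mem hM (B.pow_mem hh N))
  | neg x _ hx =>
    obtain ⟨N, hN⟩ := hx
    exact ⟨N, by rw [neg_mul]; exact B.neg_mem hN⟩
  | mul x y _ _ hx hy =>
    obtain ⟨N, hN⟩ := hx
    obtain ⟨M, hM⟩ := hy
    refine ⟨N + M, ?_⟩
    have e : x * y * h ^ (N + M) = x * h ^ N * (y * h ^ M) := by ring
    rw [e]
    exact B.mul_mem hN hM

/-- the localized chart `a` is over the chart `b`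

PROOF. `H_le` for the finitely many generators `x' b l`, `y' b`, `u' b` of `A' b`: `f * h ^ N ∈ A a`,
reduce; the set of the `f : R.F` with `f * r h ^ N ∈ AJ {a}` for some `N` is a subring. -/
theorem ev_linkL {S : AtL Y} (h : S.Ok) : Ev Y.t Y.y0 fun R => ∀ a, ∀ e ∈ S.H a, R.r e.1 ≠ 0 ∧
    R.r e.1 ∈ AJ (fun j => R.r (Y.z j)) Y.σ {a} ∧
    ∀ f ∈ BR S R e.2, ∃ N : ℕ, f * R.r e.1 ^ N ∈ AJ (fun j => R.r (Y.z j)) Y.σ {a} := by
  refine Ev.all fun a => Ev.all_mem (S.H a) fun e he => ?_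
  have hne := (h.H_mem a e he).1
  have hAR : ∀ {v : E}, v ∈ Y.A a → Ev Y.t Y.y0 fun R => v ∈ R.Λ ∧
      R.r v ∈ AJ (fun j => R.r (Y.z j)) Y.σ {a} := fun hv =>
    (ev_AR h.ok.z_ne Y.σ {a} (by
      rw [← chA_eq_AR]
      exact hv)).mono fun R hR => ⟨hR.1, hR.2.2⟩
  have key : ∀ f ∈ S.A' e.2, Ev Y.t Y.y0 fun R => ∃ N : ℕ,
      R.r f * R.r e.1 ^ N ∈ AJ (fun j => R.r (Y.z j)) Y.σ {a} := by
    intro f hf
    obtain ⟨N, hN⟩ := h.H_le a e he f hf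
    refine ((hAR hN).and ((ev_mem f).and (ev_mem e.1))).mono fun R hR => ⟨N, ?_⟩
    have h1 := hR.1.2
    rwa [R.r_mul hR.2.1 (R.Λ.pow_mem hR.2.2 N), R.r_pow hR.2.2] at h1
  have k1 : Ev Y.t Y.y0 fun R => ∀ l, ∃ N : ℕ,
      R.r (S.x' e.2 l) * R.r e.1 ^ N ∈ AJ (fun j => R.r (Y.z j)) Y.σ {a} :=
    Ev.all fun l => key _ (Algebra.subset_adjoin (Or.inl ⟨l, rfl⟩))
  have k2 := key (S.y' e.2) (Algebra.subset_adjoin (Or.inr (Or.inl rfl)))
  have k3 := key (S.u' e.2) (Algebra.subset_adjoin (Or.inr (Or.inr rfl)))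
  refine (((ev_ne hne).and (hAR (h.H_mem a e he).2)).and (k1.and (k2.and k3))).mono fun R hR => ?_
  obtain ⟨⟨⟨-, -, h0⟩, -, h1⟩, h2, h3, h4⟩ := hR
  refine ⟨h0, h1, fun f hf => codL_loc h1 ?_ hf⟩
  rintro _ (⟨l, rfl⟩ | rfl | rfl)
  · exact h2 l
  · exact h3
  · exact h4

/-- elements of the compositum of two charts -/
theorem ev_supL {S : AtL Y} (h : S.Ok) (a : Fin Y.k) (b : Fin S.k') {v : E}
    (hv : v ∈ Y.A a ⊔ S.A' b) : Ev Y.t Y.y0 fun R =>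
    R.r v ∈ AJ (fun j => R.r (Y.z j)) Y.σ {a} ⊔ BR S R b := by
  classical
  let G : Finset E := (Finset.univ.image fun i => Y.z i / Y.z (Y.σ a)) ∪
    (Finset.univ.image (S.x' b) ∪ {S.y' b, S.u' b})
  have hG : (G : Set E) = (Set.range fun i => Y.z i / Y.z (Y.σ a)) ∪
      (Set.range (S.x' b) ∪ {S.y' b, S.u' b}) := by
    show ((((Finset.univ.image fun i => Y.z i / Y.z (Y.σ a)) ∪
      (Finset.univ.image (S.x' b) ∪ {S.y' b, S.u' b}) : Finset E)) : Set E) = _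
    rw [Finset.coe_union, Finset.coe_union, Finset.coe_image, Finset.coe_image, Finset.coe_univ,
      Set.image_univ, Finset.coe_univ, Set.image_univ, Finset.coe_pair]
  have hv' : v ∈ Algebra.adjoin ℂ (G : Set E) := by
    rw [hG, Algebra.adjoin_union]
    exact hv
  have hzz : Ev Y.t Y.y0 fun R => ∀ j, Y.z j ∈ R.Λ ∧ (Y.z j)⁻¹ ∈ R.Λ ∧ R.r (Y.z j) ≠ 0 :=
    Ev.all fun j => ev_ne (h.ok.z_ne j)
  refine ((ev_adjoin G hv').and hzz).mono fun R hR => ?_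
  obtain ⟨⟨-, -, -, h1⟩, h2⟩ := hR
  have hle : Subring.closure (R.r '' (G : Set E)) ≤
      AJ (fun j => R.r (Y.z j)) Y.σ {a} ⊔ BR S R b := by
    rw [Subring.closure_le, hG]
    rintro _ ⟨g, (⟨i, rfl⟩ | ⟨l, rfl⟩ | rfl | rfl), rfl⟩
    · refine (le_sup_left : _ ≤ AJ (fun j => R.r (Y.z j)) Y.σ {a} ⊔ BR S R b)
        (Subring.subset_closure ⟨i, a, Finset.mem_singleton_self a, ?_⟩)
      show R.r (Y.z i / Y.z (Y.σ a)) = R.r (Y.z i) / R.r (Y.z (Y.σ a))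
      rw [div_eq_mul_inv, R.r_mul (h2 i).1 (h2 (Y.σ a)).2.1,
        R.r_inv (h.ok.z_ne _) (h2 (Y.σ a)).1 (h2 (Y.σ a)).2.1, div_eq_mul_inv]
    · exact (le_sup_right : BR S R b ≤ _) (Subring.subset_closure (Or.inl ⟨l, rfl⟩))
    · exact (le_sup_right : BR S R b ≤ _) (Subring.subset_closure (Or.inr (Or.inl rfl)))
    · exact (le_sup_right : BR S R b ≤ _) (Subring.subset_closure (Or.inr (Or.inr rfl)))
  exact hle h1

/-- the local equations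

PROOF. `d'_trans`: an element of `Y.A a ⊔ S.A' b` is in the algebra generated by the finitely many
`z i / z (σ a)`, `x' b l`, `y' b`, `u' b` (`Algebra.adjoin_union`); `ev_adjoin`. -/
theorem ev_dL {S : AtL Y} (h : S.Ok) : Ev Y.t Y.y0 fun R => ∀ a b i, R.r (Y.d a i) ≠ 0 ∧
    R.r (S.d' b i) ≠ 0 ∧
    R.r (S.d' b i) / R.r (Y.d a i) ∈ AJ (fun j => R.r (Y.z j)) Y.σ {a} ⊔ BR S R b ∧
    R.r (Y.d a i) / R.r (S.d' b i) ∈ AJ (fun j => R.r (Y.z j)) Y.σ {a} ⊔ BR S R b := by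
  refine Ev.all fun a => Ev.all fun b => Ev.all fun i => ?_
  refine (((ev_div (S.d' b i) (h.ok.d_ne a i)).and (ev_div (Y.d a i) (h.d'_ne b i))).and
    ((ev_supL h a b (h.d'_trans a b i).1).and (ev_supL h a b (h.d'_trans a b i).2))).mono
    fun R hR => ?_
  obtain ⟨⟨⟨-, h1, h2⟩, -, h3, h4⟩, h5, h6⟩ := hR
  refine ⟨h1, h3, ?_, ?_⟩
  · rw [← h2]
    exact h5
  · rw [← h4]
    exact h6

/-- the generating sections of the `(m + 1) D_i` at the reductions, as in `ev_good0`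

PROOF. `ev_secs` with `m + 1` and `Y.S'`; see the proof of `ev_good0`. -/
theorem ev_gen' {X : AtD E n I} (hX : X.Ok) [DecidableEq I] : Ev X.t X.y0 fun R =>
    ∀ Z : _root_.KM.Atl (KR R) (Fin X.k) I, IsY X R Z →
      open Classical in Z.Gen (X.m + 1) fun i => (X.S' i).image R.r := by
  classical
  choose g' hgS' hgU' using hX.S'_gen
  have e2 := ev_secs hX (m := X.m + 1) (S := X.S') hX.S'_sec (g := fun a i => g' i a)
    fun a i => hgU' i a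
  refine e2.mono fun R hR Z hZ => ?_
  obtain ⟨h2, h2'⟩ := hR
  constructor
  · intro j s hs i
    obtain ⟨f, hf, rfl⟩ := Finset.mem_image.1 hs
    rw [_root_.KM.Atl.eq_e, hZ.A, hZ.d]
    exact h2 j f hf i
  · intro i j
    refine ⟨R.r (g' j i), Finset.mem_image_of_mem _ (hgS' j i), ?_⟩
    rw [hZ.A, hZ.d]
    exact h2' i j

end Pool.Agent.Lib.MP_732f67_ag.T
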