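import Pool.Agent.Lib.MP_732f67_ag.G2.Defs

/-!
# Project KM: the field `Lp R yL` and its constants
-/

set_option autoImplicit false

namespace Pool.Agent.Lib.MP_732f67_ag.T

open Pool.Agent.KM

variable {E : Type} [Field E] [Algebra ℂ E] {n : ℕ} {t : Fin n → E} {y : E}

/-- the field of constants of `Lp R yL` -/
def KL (R : Red E t y) (yL : E) : Subfield (Lp R yL) := (KR R).comap (Lp R yL).subtype

theorem mem_KL (R : Red E t y) (yL : E) {x : Lp R yL} : x ∈ KL R yL ↔ (x : R.F) ∈ KR R := Iff.rfl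

/-- the algebra structure of `Lp` -/
@[instance_reducible] noncomputable def algLp (R : Red E t y) (yL : E) :
    Algebra (ZMod R.p) (Lp R yL) :=
  ((algebraMap (ZMod R.p) R.F).codRestrict (Lp R yL)
    fun c => Subfield.subset_closure (Or.inl ⟨c, rfl⟩)).toAlgebra

/-- the algebra structure of `KL` -/
@[instance_reducible] noncomputable def algKL (R : Red E t y) (yL : E) :
    Algebra (ZMod R.p) (KL R yL) :=
  (((algebraMap (ZMod R.p) R.F).codRestrict (Lp R yL)
    fun c => Subfield.subset_closure (Or.inl ⟨c, rfl⟩)).codRestrict (KL R yL)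
    fun c => (mem_KR R).2 (isAlgebraic_algebraMap c)).toAlgebra

/-- the inclusion of `Lp` -/
noncomputable def incLp (R : Red E t y) (yL : E) :
    letI := algLp R yL
    Lp R yL →ₐ[ZMod R.p] R.F :=
  letI := algLp R yL
  { (Lp R yL).subtype with commutes' := fun _ => rfl }

/-- the inclusion of `KL` -/
noncomputable def incKL (R : Red E t y) (yL : E) :
    letI := algKL R yL
    KL R yL →ₐ[ZMod R.p] R.F :=
  letI := algKL R yL
  { (Lp R yL).subtype.comp (KL R yL).subtype with commutes' := fun _ => rfl }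

theorem isAlgKL (R : Red E t y) (yL : E) :
    @Algebra.IsAlgebraic (ZMod R.p) (KL R yL) _ _ (algKL R yL) := by
  let _ := algKL R yL
  refine ⟨fun x => ?_⟩
  have h : Function.Injective (incKL R yL) := fun a b hab => Subtype.ext (Subtype.ext hab)
  rw [← isAlgebraic_algHom_iff (incKL R yL) h]
  exact (mem_KR R).1 x.2

theorem towerKL (R : Red E t y) (yL : E) :
    @IsScalarTower (ZMod R.p) (KL R yL) (Lp R yL) (algKL R yL).toSMul _ (algLp R yL).toSMul := by
  let _ := algKL R yL
  let _ := algLp R yL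
  exact IsScalarTower.of_algebraMap_eq fun _ => rfl

/-- PROOF. As `KR_perfect`: `KL R yL` is algebraic over `ZMod p`. -/
theorem KL_perfect (R : Red E t y) (yL : E) : PerfectField (KL R yL) := by
  let _ := algKL R yL
  have := isAlgKL R yL
  exact Algebra.IsAlgebraic.perfectField (K := ZMod R.p) (L := KL R yL)

/-- PROOF. As `KR_FG`: `Lp R yL` is generated by the prime field, `R.r yL` and the `R.r (t i)`. -/
theorem KL_FG (R : Red E t y) (yL : E) : _root_.KM.FG (KL R yL) := by
  classical
  have hy : R.r yL ∈ Lp R yL := Subfield.subset_closure (Or.inr (Or.inl rfl))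
  have ht : ∀ i, R.r (t i) ∈ Lp R yL := fun i => Subfield.subset_closure (Or.inr (Or.inr ⟨i, rfl⟩))
  refine ⟨insert ⟨R.r yL, hy⟩ (Finset.univ.image fun i => ⟨R.r (t i), ht i⟩), ?_⟩
  set C := Subfield.closure ((KL R yL : Set (Lp R yL)) ∪
    ((insert ⟨R.r yL, hy⟩ (Finset.univ.image fun i => ⟨R.r (t i), ht i⟩) : Finset (Lp R yL)) :
      Set (Lp R yL))) with hC
  have hle : Lp R yL ≤ C.map (Lp R yL).subtype := by
    refine Subfield.closure_le.2 ?_
    rintro z (⟨c, rfl⟩ | rfl | ⟨i, rfl⟩)
    · refine ⟨⟨algebraMap (ZMod R.p) R.F c, Subfield.subset_closure (Or.inl ⟨c, rfl⟩)⟩, ?_, rfl⟩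
      exact Subfield.subset_closure (Or.inl ((mem_KR R).2 (isAlgebraic_algebraMap c)))
    · exact ⟨⟨R.r yL, hy⟩, Subfield.subset_closure (Or.inr (Finset.mem_coe.2
        (Finset.mem_insert_self _ _))), rfl⟩
    · exact ⟨⟨R.r (t i), ht i⟩, Subfield.subset_closure (Or.inr (Finset.mem_coe.2
        (Finset.mem_insert_of_mem (Finset.mem_image.2 ⟨i, Finset.mem_univ i, rfl⟩)))), rfl⟩
  rw [eq_top_iff]
  intro x _
  obtain ⟨z, hz, hzx⟩ := hle x.2
  have : z = x := Subtype.ext hzx
  rwa [← this]

/-- PROOF. As `KR_rk`: the elements `R.r (t i)` of `Lp R yL` are a transcendence basis of `R.F` over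
`ZMod p` (`R.trans`), so also one of `Lp R yL` over `ZMod p` and over the algebraic extension
`KL R yL`. -/
theorem KL_rk (R : Red E t y) (yL : E) : _root_.KM.rk (KL R yL) (Set.univ : Set (Lp R yL)) = n := by
  let _ := algKL R yL
  let _ := algLp R yL
  have := isAlgKL R yL
  have := towerKL R yL
  have h1 := R.trans
  have ht : ∀ i, R.r (t i) ∈ Lp R yL := fun i => Subfield.subset_closure (Or.inr (Or.inr ⟨i, rfl⟩))
  have hinj : Function.Injective (incLp R yL) := fun a b hab => Subtype.ext hab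
  set v : Fin n → Lp R yL := fun i => ⟨R.r (t i), ht i⟩ with hv
  have hvv : (incLp R yL : Lp R yL → R.F) ∘ v = fun i => R.π (R.ρ2 ⟨t i, R.t_mem i⟩) := by
    funext i
    exact R.r_of (R.t_mem i)
  have h0 : AlgebraicIndependent (ZMod R.p) v := by
    refine AlgebraicIndependent.of_comp (incLp R yL) ?_
    rw [hvv]
    exact h1.1
  have h2 : AlgebraicIndependent (KL R yL) v := h0.extendScalars (KL R yL)
  have h3 : IsTranscendenceBasis (KL R yL) v := by
    apply h2.isTranscendenceBasis_of_trdeg_le_of_finite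
    have h4 := h1.cardinalMk_eq_trdeg
    have h5 : Algebra.trdeg (ZMod R.p) (KL R yL) + Algebra.trdeg (KL R yL) (Lp R yL) =
        Algebra.trdeg (ZMod R.p) (Lp R yL) := trdeg_add_eq (ZMod R.p) (KL R yL) (A := Lp R yL)
    have h6 : Algebra.trdeg (ZMod R.p) (Lp R yL) ≤ Algebra.trdeg (ZMod R.p) R.F :=
      trdeg_le_of_injective (incLp R yL) hinj
    rw [h4]
    refine le_trans ?_ h6
    rw [← h5]
    exact le_add_self
  have h6 := (AlgebraicIndependent.matroid_isBase_iff.mpr h3.to_subtype_range).encard_eq_eRank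
  unfold _root_.KM.rk
  rw [Matroid.eRk_univ_eq, ← h6, ← Set.image_univ, h2.injective.encard_image, Set.encard_univ]
  simp

/-- the reductions of the elements of `t` -/
theorem t_mem_Lp (R : Red E t y) (yL : E) (i : Fin n) : R.r (t i) ∈ Lp R yL :=
  Subfield.subset_closure (Or.inr (Or.inr ⟨i, rfl⟩))

end Pool.Agent.Lib.MP_732f67_ag.T
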