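import Pool.Agent.Lib.MP_732f67_ag.KC.GeoTau

/-!
# Project KM: the map `τ` on a chart without boundary
-/

set_option autoImplicit false

namespace Pool.Agent.Lib.MP_732f67_ag.KC

open KM (UnitOf)

variable {n : ℕ} {F : Type*} [Field F] {p : ℕ} [Fact p.Prime] [CharP F p]

/-- PROOF. `y * (w ^ l)⁻¹ = (J⁻¹ * e⁻¹) ^ p * (J * (h * v⁻¹))` with `h = y * (e ^ p * c) ∈ A`, because
`w ^ l * c = v * J ^ (m * l)` and `p = m * l + 1`; `Tr_mul`, `hT`, `PBA.tr` for `Tr'`. -/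
theorem tau_chart {A : Subring F} {t x : Fin n → F} {D D' : Fin n → Derivation ℤ F F}
    {Tr Tr' : F →+ F} (hr : Ref p D t Tr) (hr' : Ref p D' x Tr') (hA : PBA p A x) {J : F}
    (hJ : J ≠ 0) (hT : ∀ g, Tr (J * g) = J * Tr' g) {m l : ℕ} (hm : p = m * l + 1) {w c v e y : F}
    (hv : UnitOf A v) (hw : w ^ l * c = v * J ^ (m * l)) (hc : c ≠ 0) (he : e ≠ 0)
    (hy : y * (e ^ p * c) ∈ A) : tau Tr w l y * e ∈ A := by
  have hv0 : v ≠ 0 := hv.1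
  have h1 : w ^ l ≠ 0 := by
    intro h0
    rw [h0, zero_mul] at hw
    exact mul_ne_zero hv0 (pow_ne_zero _ hJ) hw.symm
  have h3 : y * (w ^ l)⁻¹ = (J⁻¹ * e⁻¹) ^ p * (J * (y * (e ^ p * c) * v⁻¹)) := by
    have h4 : J ^ p = J ^ (m * l) * J := by
      rw [← pow_succ, ← hm]
    rw [mul_pow, inv_pow, inv_pow, h4]
    have h5 : J ^ (m * l) ≠ 0 := pow_ne_zero _ hJ
    have h6 : e ^ p ≠ 0 := pow_ne_zero _ he
    field_simp
    linear_combination (-y) * hw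
  rw [tau, h3, hr.Tr_mul, hT]
  have h7 : J⁻¹ * e⁻¹ * (J * Tr' (y * (e ^ p * c) * v⁻¹)) * e = Tr' (y * (e ^ p * c) * v⁻¹) := by
    field_simp
  rw [h7]
  exact hA.tr hr' (A.mul_mem hy hv.2.2)

end Pool.Agent.Lib.MP_732f67_ag.KC
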