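import Pool.Agent.Lib.MP_732f67_ag.T2.CanL
import Pool.Agent.Lib.MP_732f67_ag.T2.TauL
import Pool.Agent.Lib.MP_732f67_ag.T2.CodL
import Pool.Agent.Lib.MP_732f67_ag.KM.HartV

/-!
# Project KM: `τ` maps the sections over `Lp` to sections
-/

set_option autoImplicit false

namespace Pool.Agent.Lib.MP_732f67_ag.T

open Pool.Agent.KM
open Pool.Agent.Lib.MP_732f67_ag.KC (IsPB PBA Ref AJ EP tau bZ)

/-- non-units of a valuation ring -/
theorem val_add {F : Type*} [Field F] {O : ValuationSubring F} {x y : F}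
    (hx : x = 0 ∨ x⁻¹ ∉ O) (hy : y = 0 ∨ y⁻¹ ∉ O) : x + y = 0 ∨ (x + y)⁻¹ ∉ O := by
  have key : ∀ z : F, (z = 0 ∨ z⁻¹ ∉ O) ↔ O.valuation z < 1 := by
    intro z
    rcases eq_or_ne z 0 with rfl | hz
    · simp
    · rw [← O.valuation_le_one_iff, map_inv₀, not_le, one_lt_inv₀ ((Valuation.pos_iff _).2 hz)]
      simp [hz]
  rw [key] at hx hy ⊢
  exact Valuation.map_add_lt _ hx hy

theorem val_mul {F : Type*} [Field F] {O : ValuationSubring F} {x y : F}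
    (hx : x = 0 ∨ x⁻¹ ∉ O) (hy : y ∈ O) : x * y = 0 ∨ (x * y)⁻¹ ∉ O := by
  by_cases h0 : x * y = 0
  · exact Or.inl h0
  · refine Or.inr fun h1 => ?_
    have hx0 : x ≠ 0 := left_ne_zero_of_mul h0
    rcases hx with h | h
    · exact hx0 h
    · apply h
      have hy0 : y ≠ 0 := right_ne_zero_of_mul h0
      have h2 : x⁻¹ = (x * y)⁻¹ * y := by
        rw [mul_inv, mul_assoc, inv_mul_cancel₀ hy0, mul_one]
      rw [h2]
      exact O.mul_mem _ _ h1 hy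

theorem val_sum {F : Type*} [Field F] {O : ValuationSubring F} {ι : Type*} (s : Finset ι)
    (f : ι → F) (h : ∀ i ∈ s, f i = 0 ∨ (f i)⁻¹ ∉ O) :
    ∑ i ∈ s, f i = 0 ∨ (∑ i ∈ s, f i)⁻¹ ∉ O := by
  classical
  induction s using Finset.induction_on with
  | empty => exact Or.inl rfl
  | insert a s ha ih =>
    rw [Finset.sum_insert ha]
    exact val_add (h a (Finset.mem_insert_self a s)) (ih fun i hi => h i (Finset.mem_insert_of_mem hi))

variable {E : Type} [Field E] [Algebra ℂ E] {n : ℕ} {I : Type} [Fintype I] [DecidableEq I]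
  {Y : AtD E n I}

omit [Fintype I] [DecidableEq I] in
/-- constants are in every valuation ring -/
theorem KR_le_val (R : Red E Y.t Y.y0) (O : ValuationSubring R.F) : ∀ x ∈ KR R, x ∈ O := by
  intro x hx
  have h1 : IsIntegral (ZMod R.p) x := ((mem_KR R).1 hx).isIntegral
  have h2 : IsIntegral (Subring.closure (∅ : Set R.F)) x := by
    let φ : ZMod R.p →+* Subring.closure (∅ : Set R.F) :=
      (algebraMap (ZMod R.p) R.F).codRestrict _ fun c => by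
        obtain ⟨k, rfl⟩ := ZMod.intCast_surjective c
        rw [map_intCast]
        exact intCast_mem _ k
    exact IsIntegral.map_of_comp_eq φ (RingHom.id R.F) (by
      ext
      rfl) h1
  refine _root_.KM.hart_mem_of_integral h2 O fun y hy => ?_
  have h3 : Subring.closure (∅ : Set R.F) ≤ O.toSubring := Subring.closure_le.2 (Set.empty_subset _)
  exact h3 hy

/-- **`τ` preserves the sections over `Lp`** -/
theorem stab_of {S : AtL Y} {R : Red E Y.t Y.y0} {Z : _root_.KM.Atl (KR R) (Fin Y.k) I}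
    (hZ : IsY Y R Z) (hG : Z.Good Y.m) (hgen : Z.Gen Y.m (WR Y R))
    (hbig : ∀ x : R.F, IsAlgebraic (Subfield.closure ((KR R : Set R.F) ∪
        {v | ∃ j, ∃ s ∈ WR Y R j, ∃ s' ∈ WR Y R j, v = s / s'}) : Subfield R.F) x)
    {g : Fin Y.k → I → E}
    (hg₀ : ∀ a j, R.r (g a j) ∈ WR Y R j ∧ _root_.KM.UnitOf (Z.A a) (R.r (g a j) * Z.d a j ^ Y.m))
    (hcod : ∀ a, ∀ r : Fin (n - 1) → R.F,
      (∀ k, ∃ i, ∃ s ∈ Y.S i, r k = R.r s / R.r (g a i)) →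
      ∃ P : MvPolynomial (Fin (n - 1)) (KR R), P ≠ 0 ∧
        ∃ w₀ ∈ AJ (fun j => R.r (Y.z j)) Y.σ {a}, ∃ w : E × Fin S.k' → R.F,
          (∀ e ∈ S.H a, w e ∈ AJ (fun j => R.r (Y.z j)) Y.σ {a}) ∧
          MvPolynomial.aeval r P = EP (fun a i => R.r (Y.x a i)) Y.co a * w₀ +
            ∑ e ∈ S.H a, R.r e.1 * w e)
    (hlink : ∀ a, ∀ e ∈ S.H a, R.r e.1 ≠ 0 ∧
      R.r e.1 ∈ AJ (fun j => R.r (Y.z j)) Y.σ {a} ∧
      ∀ f ∈ BR S R e.2, ∃ N : ℕ, f * R.r e.1 ^ N ∈ AJ (fun j => R.r (Y.z j)) Y.σ {a})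
    (hd : ∀ a b i, R.r (Y.d a i) ≠ 0 ∧ R.r (S.d' b i) ≠ 0 ∧
      R.r (S.d' b i) / R.r (Y.d a i) ∈ AJ (fun j => R.r (Y.z j)) Y.σ {a} ⊔ BR S R b ∧
      R.r (Y.d a i) / R.r (S.d' b i) ∈ AJ (fun j => R.r (Y.z j)) Y.σ {a} ⊔ BR S R b)
    (hdL : ∀ b i, R.r (S.d' b i) ∈ Lp R S.yL)
    (hch : ∀ b, PBA R.p (BR S R b) (fun l => R.r (S.x' b l)) ∧
      (∀ x ∈ BR S R b, x ∈ Lp R S.yL) ∧
      ∀ x ∈ Lp R S.yL, IsIntegral (BR S R b) x → x ∈ BR S R b)
    {D : Fin n → Derivation ℤ R.F R.F} {Tr : R.F →+ R.F}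
    (hr : Ref R.p D (fun k => R.r (Y.t k)) Tr)
    (hcan : ∀ b, (Matrix.of fun l k => D k (R.r (S.x' b l))).det ≠ 0 ∧
      ∃ v, _root_.KM.UnitOf (BR S R b) v ∧
        R.r (Y.ω ^ Y.a) * ∏ i, R.r (S.d' b i) ^ (Y.a * Y.c i) =
          v * (Matrix.of fun l k => D k (R.r (S.x' b l))).det ^ (Y.a * Y.q))
    (hchg : ∀ b, ∃ (D' : Fin n → Derivation ℤ R.F R.F) (Tr' : R.F →+ R.F),
          Ref R.p D' (fun i => R.r (S.x' b i)) Tr' ∧
          ∀ g, Tr ((Matrix.of fun l k => D k (R.r (S.x' b l))).det * g) =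
            (Matrix.of fun l k => D k (R.r (S.x' b l))).det * Tr' g)
    {l : ℕ} (hp : R.p = Y.a * Y.q * (l + 1) + 1)
    (hEP : ∀ a, EP (fun a i => R.r (Y.x a i)) Y.co a ≠ 0)
    (hpole : ∀ T, ∀ y ∈ Z.V ((R.p : ℤ) • T + ((l + 1 : ℕ) : ℤ) • bZ fun i => Y.a * Y.c i), ∀ a,
      ∃ k : ℕ, tau Tr (R.r (Y.ω ^ Y.a)) (l + 1) y * Z.eq a T *
        EP (fun a i => R.r (Y.x a i)) Y.co a ^ k ∈ Z.A a)
    {T : I → ℤ} {y : R.F}
    (hy : y ∈ Z.V ((R.p : ℤ) • T + ((l + 1 : ℕ) : ℤ) • bZ fun i => Y.a * Y.c i))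
    (hyL : y ∈ Lp R S.yL) : tau Tr (R.r (Y.ω ^ Y.a)) (l + 1) y ∈ Z.V T := by
  have := KR_perfect R
  set τ := tau Tr (R.r (Y.ω ^ Y.a)) (l + 1) with hτ
  refine hG.hartV (KR_FG R) (KR_rk R) hgen hbig hg₀ fun O a hKO hAO r hr' hres => ?_
  have hAO' : ∀ x ∈ AJ (fun j => R.r (Y.z j)) Y.σ {a}, x ∈ O := fun x hx => hAO x (by
    rw [hZ.A]
    exact hx)
  -- the equations of the chart `b`
  have hdiv : ∀ (O' : ValuationSubring R.F) (a' : Fin Y.k) (b : Fin S.k') (i : I),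
      (∀ x ∈ AJ (fun j => R.r (Y.z j)) Y.σ {a'}, x ∈ O') → (∀ x ∈ BR S R b, x ∈ O') →
      R.r (S.d' b i) / Z.d a' i ∈ O' ∧ Z.d a' i / R.r (S.d' b i) ∈ O' := by
    intro O' a' b i h1 h2
    have hle : AJ (fun j => R.r (Y.z j)) Y.σ {a'} ⊔ BR S R b ≤ O'.toSubring :=
      sup_le (fun x hx => h1 x hx) fun x hx => h2 x hx
    rw [hZ.d]
    exact ⟨hle (hd a' b i).2.2.1, hle (hd a' b i).2.2.2⟩
  have hcmp : ∀ (a' : Fin Y.k) (b : Fin S.k') (s : I → ℤ),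
      Z.eq a' s = (∏ i, R.r (S.d' b i) ^ s i) * ∏ i, (Z.d a' i / R.r (S.d' b i)) ^ s i := by
    intro a' b s
    unfold _root_.KM.Atl.eq
    rw [← Finset.prod_mul_distrib]
    refine Finset.prod_congr rfl fun i _ => ?_
    rw [← mul_zpow, mul_div_cancel₀ _ (hd a' b i).2.1]
  have hcmp' : ∀ (a' : Fin Y.k) (b : Fin S.k') (s : I → ℤ),
      (∏ i, R.r (S.d' b i) ^ s i) = Z.eq a' s * ∏ i, (R.r (S.d' b i) / Z.d a' i) ^ s i := by
    intro a' b s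
    unfold _root_.KM.Atl.eq
    rw [← Finset.prod_mul_distrib]
    refine Finset.prod_congr rfl fun i _ => ?_
    rw [← mul_zpow, mul_div_cancel₀ _ (Z.ne a' i)]
  obtain ⟨P, hP, w₀, hw₀, w, hw, he⟩ := hcod a r (by
    intro k
    obtain ⟨j, s, hs, hk⟩ := hr' k
    obtain ⟨f, hf, rfl⟩ := mem_WR.1 hs
    exact ⟨j, f, hf, hk⟩)
  obtain ⟨hP0, hPO⟩ := hres.2 P hP
  by_cases hE : (EP (fun a i => R.r (Y.x a i)) Y.co a)⁻¹ ∈ O
  · -- outside the boundary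
    obtain ⟨k, hk⟩ := hpole T y hy a
    have h1 : τ y * Z.eq a T = τ y * Z.eq a T * EP (fun a i => R.r (Y.x a i)) Y.co a ^ k *
        ((EP (fun a i => R.r (Y.x a i)) Y.co a)⁻¹) ^ k := by
      rw [mul_assoc (τ y * Z.eq a T), ← mul_pow, mul_inv_cancel₀ (hEP a), one_pow, mul_one]
    rw [h1]
    exact O.mul_mem _ _ (hAO _ hk) (O.toSubring.pow_mem hE k)
  · -- one of the links is a unit
    obtain ⟨e, heH, heO⟩ : ∃ e ∈ S.H a, (R.r e.1)⁻¹ ∈ O := by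
      by_contra hcon
      push Not at hcon
      have h1 : EP (fun a i => R.r (Y.x a i)) Y.co a * w₀ = 0 ∨
          (EP (fun a i => R.r (Y.x a i)) Y.co a * w₀)⁻¹ ∉ O :=
        val_mul (Or.inr hE) (hAO' _ hw₀)
      have h2 := val_sum (S.H a) (fun e => R.r e.1 * w e) fun e he' =>
        val_mul (Or.inr (hcon e he')) (hAO' _ (hw e he'))
      rcases val_add h1 h2 with h3 | h3
      · exact hP0 (he.trans h3)
      · rw [he] at hPO
        exact h3 hPO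
    obtain ⟨he0, heA, heB⟩ := hlink a e heH
    have hBO : ∀ x ∈ BR S R e.2, x ∈ O := by
      intro x hx
      obtain ⟨N, hN⟩ := heB x hx
      have h1 : x = x * R.r e.1 ^ N * ((R.r e.1)⁻¹) ^ N := by
        rw [mul_assoc, ← mul_pow, mul_inv_cancel₀ he0, one_pow, mul_one]
      rw [h1]
      exact O.mul_mem _ _ (hAO' _ hN) (O.toSubring.pow_mem heO N)
    set b := e.2 with hb
    obtain ⟨hpba, hBL, hBcl⟩ := hch b
    obtain ⟨hJ, v, hv, hvJ⟩ := hcan b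
    obtain ⟨D', Tr', hr'', hTr⟩ := hchg b
    set J := (Matrix.of fun l k => D k (R.r (S.x' b l))).det with hJdef
    have hd0 : ∀ i, R.r (S.d' b i) ≠ 0 := fun i => (hd a b i).2.1
    set eT : R.F := ∏ i, R.r (S.d' b i) ^ T i with heT
    set cA : R.F := (∏ i, R.r (S.d' b i) ^ (Y.a * Y.c i)) ^ (l + 1) with hcA
    have heT0 : eT ≠ 0 := Finset.prod_ne_zero_iff.2 fun i _ => zpow_ne_zero _ (hd0 i)
    have hcA0 : cA ≠ 0 := pow_ne_zero _ (Finset.prod_ne_zero_iff.2 fun i _ => pow_ne_zero _ (hd0 i))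
    have hprod : (∏ i, R.r (S.d' b i) ^
        ((R.p : ℤ) • T + ((l + 1 : ℕ) : ℤ) • bZ fun i => Y.a * Y.c i) i) = eT ^ R.p * cA := by
      rw [heT, hcA, ← Finset.prod_pow, ← Finset.prod_pow, ← Finset.prod_mul_distrib]
      refine Finset.prod_congr rfl fun i _ => ?_
      rw [Pi.add_apply, Pi.smul_apply, Pi.smul_apply, zpow_add₀ (hd0 i), smul_eq_mul, smul_eq_mul,
        bZ, mul_comm (R.p : ℤ), zpow_mul, zpow_natCast, mul_comm ((l + 1 : ℕ) : ℤ), zpow_mul,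
        zpow_natCast]
      congr 2
      rw [← zpow_natCast]
    have hyB : y * (eT ^ R.p * cA) ∈ BR S R b := by
      rw [← hprod]
      refine hBcl _ (Subfield.mul_mem _ hyL (Subfield.prod_mem _ fun i _ =>
        Subfield.zpow_mem _ (hdL b i) _)) (_root_.KM.hart_integral_of_val fun O' hO' => ?_)
      obtain ⟨a', ha'⟩ := hG.cover O' (KR_le_val R O')
      have ha'' : ∀ x ∈ AJ (fun j => R.r (Y.z j)) Y.σ {a'}, x ∈ O' := fun x hx => ha' x (by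
        rw [hZ.A]
        exact hx)
      rw [hcmp' a' b, ← mul_assoc]
      refine O'.mul_mem _ _ (ha' _ (hy a')) (_root_.KM.hart_prod_mem O' _ _ fun i _ => ?_)
      have h3 := hdiv O' a' b i ha'' hO'
      exact _root_.KM.hart_zpow_mem O' h3.1 (by rw [inv_div]; exact h3.2) _
    have hw1 : R.r (Y.ω ^ Y.a) ^ (l + 1) * cA = v ^ (l + 1) * J ^ (Y.a * Y.q * (l + 1)) := by
      rw [hcA, ← mul_pow, hvJ, mul_pow, ← pow_mul]
    have hvl : _root_.KM.UnitOf (BR S R b) (v ^ (l + 1)) := by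
      refine ⟨pow_ne_zero _ hv.1, Subring.pow_mem _ hv.2.1 _, ?_⟩
      rw [← inv_pow]
      exact Subring.pow_mem _ hv.2.2 _
    have h5 : τ y * eT ∈ BR S R b :=
      KC.tau_chart hr hr'' hpba hJ hTr hp hvl hw1 hcA0 heT0 hyB
    rw [hcmp a b T, ← mul_assoc]
    refine O.mul_mem _ _ (hBO _ h5) (_root_.KM.hart_prod_mem O _ _ fun i _ => ?_)
    have h3 := hdiv O a b i hAO' hBO
    exact _root_.KM.hart_zpow_mem O h3.2 (by rw [inv_div]; exact h3.1) _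

end Pool.Agent.Lib.MP_732f67_ag.T
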