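import Pool.Agent.Lib.MP_732f67_ag.T2.HV
import Pool.Agent.Lib.MP_732f67_ag.T2.Fld
import Pool.Agent.Lib.MP_732f67_ag.KM.AsmH
import Pool.Agent.Lib.MP_732f67_ag.KM.AtSub
import Pool.Agent.Lib.MP_732f67_ag.KM.PrjV
import Pool.Agent.Lib.MP_732f67_ag.T.PartN
import Pool.Agent.Lib.MP_732f67_ag.T.Theorem

/-!
# Project KM: the theorem at the reductions, over the field `Lp`
-/

set_option autoImplicit false

namespace Pool.Agent.Lib.MP_732f67_ag.T

open Pool.Agent.KM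
open Pool.Agent.Lib.MP_732f67_ag.KC (IsPB PBA Ref AJ EP tau bZ prj)

/-- extensions of degree less than `p` are separable -/
theorem sep_of_lt {M F : Type*} [Field M] [Field F] [Algebra M F] [FiniteDimensional M F] (p : ℕ)
    [Fact p.Prime] [CharP M p] (h : Module.finrank M F < p) : Algebra.IsSeparable M F := by
  refine ⟨fun x => ?_⟩
  have hx : IsIntegral M x := IsIntegral.of_finite M x
  have hirr := minpoly.irreducible hx
  show (minpoly M x).Separable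
  rw [Polynomial.separable_iff_derivative_ne_zero hirr]
  intro h0
  have h1 : (minpoly M x).natDegree < p := (minpoly.natDegree_le x).trans_lt h
  have h2 : 0 < (minpoly M x).natDegree := minpoly.natDegree_pos hx
  have h3 := congrArg (fun q => q.coeff ((minpoly M x).natDegree - 1)) h0
  simp only [Polynomial.coeff_derivative, Polynomial.coeff_zero] at h3
  have h4 : (minpoly M x).natDegree - 1 + 1 = (minpoly M x).natDegree := by omega
  rw [h4, (minpoly.monic hx).coeff_natDegree, one_mul] at h3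
  have h5 : ((((minpoly M x).natDegree - 1 : ℕ) : M) + 1) = (((minpoly M x).natDegree : ℕ) : M) := by
    rw [← Nat.cast_succ]
    congr 1
  rw [h5, CharP.cast_eq_zero_iff M p] at h3
  exact absurd (Nat.le_of_dvd h2 h3) (by omega)

variable {E : Type} [Field E] [Algebra ℂ E] {n : ℕ} {I : Type} [Fintype I] [DecidableEq I]
  {Y : AtD E n I}

omit [Fintype I] [DecidableEq I] in
/-- `τ` commutes with the projection -/
theorem tau_prj {F : Type*} [Field F] {M : Subfield F} {p : ℕ} [Fact p.Prime] [CharP F p]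
    [FiniteDimensional M F] [Algebra.IsSeparable M F] {t : Fin n → F} (ht : IsPB p t)
    (htM : ∀ k, t k ∈ M) {D : Fin n → Derivation ℤ F F} {Tr : F →+ F} (hr : Ref p D t Tr) {w : F}
    (hw : w ∈ M) (l : ℕ) (x : F) : tau Tr w l (prj M x) = prj M (tau Tr w l x) := by
  show Tr (prj M x * (w ^ l)⁻¹) = prj M (Tr (x * (w ^ l)⁻¹))
  rw [← KC.prj_tr M ht htM hr, mul_comm x, KC.prj_mul M (M.inv_mem (M.pow_mem hw l)), mul_comm]

/-- **the theorem at the reductions** -/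
theorem ev_theoremL {S : AtL Y} (h : S.Ok) (hN : 0 < Y.N)
    (hM : ∀ x ∈ S.L, Ev Y.t Y.y0 fun R => R.r x ∈ Lp R S.yL)
    (hdeg : Ev Y.t Y.y0 fun R => FiniteDimensional (Lp R S.yL) R.F ∧
      Module.finrank (Lp R S.yL) R.F = Module.finrank S.L E) :
    Ev Y.t Y.y0 fun R => ∑ i, (Y.c i : ℝ) / Y.q ≤ 2 * n ∧
      (∑ i, (Y.c i : ℝ) / Y.q = 2 * n → ∃ J : Finset I, J.card = n ∧ EqDataL Y S J R) := by
  classical
  have hX := h.ok
  obtain ⟨l₀, hC⟩ := partC2 hX hN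
  choose g hgS hgU using hX.S_gen
  have hg : ∀ a i, g i a ∈ Y.S i ∧ Un (Y.A a) (g i a * Y.d a i ^ Y.m) :=
    fun a i => ⟨hgS i a, hgU i a⟩
  have hm : 0 < Y.a * Y.q := Nat.mul_pos hX.a_pos hX.q_pos
  have e1 := (ev_good0 hX hN (g := fun a i => g i a) hg).and
    ((ev_codL h (g := fun a i => g i a) hg).and ((ev_linkL h).and (ev_dL h)))
  have e2 := (ev_chL h hM).and ((ev_canL h).and (Ev.all fun b => ev_change hX.prim (x'_basis h b)))
  have e3 := (ev_dvd (t := Y.t) (y := Y.y0) (Y.a * Y.q) hm).and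
    ((ev_large (t := Y.t) (y := Y.y0) (Y.a * Y.q * (l₀ + 2) + n + 1)).and
      (ev_large (t := Y.t) (y := Y.y0) (Module.finrank S.L E)))
  have e4 : Ev Y.t Y.y0 fun R => (∀ a i, R.r (Y.d a i) ∈ Lp R S.yL) ∧
      (∀ b i, R.r (S.d' b i) ∈ Lp R S.yL) ∧ (∀ i, ∀ s ∈ Y.S i, R.r s ∈ Lp R S.yL) ∧
      (∀ i, ∀ s ∈ Y.S' i, R.r s ∈ Lp R S.yL) ∧ R.r (Y.ω ^ Y.a) ∈ Lp R S.yL :=
    (Ev.all fun a => Ev.all fun i => hM _ (h.d_mem a i)).and
      ((Ev.all fun b => Ev.all fun i => hM _ (h.d'_mem b i)).and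
        ((Ev.all fun i => Ev.all_mem _ fun s hs => hM _ (h.S_mem i s hs)).and
          ((Ev.all fun i => Ev.all_mem _ fun s hs => hM _ (h.S'_mem i s hs)).and
            (hM _ (pow_mem h.ω_mem _)))))
  refine (((e1.and e2).and (e3.and e4)).and ((hC.and (ev_two hX)).and
    ((ev_gen' hX).and ((ev_pb hX.prim).and hdeg)))).mono fun R hR => ?_
  obtain ⟨⟨⟨⟨⟨Z, hZ, hG, hgen, hbig, hE, hg₀⟩, hcod, hlink, hd⟩, hch, hcan, hchg⟩,
    ⟨⟨j, hj⟩, hlarge, hdlt⟩, hdM, hd'M, hSM, hS'M, hωM⟩, ⟨hC, htwo⟩, hgen', hpb, hfin, hdeg⟩ := hR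
  have hp1 : 1 ≤ R.p := R.hp.out.one_le
  have hj1 : l₀ + 1 < j := by
    by_contra hcon
    have h1 : Y.a * Y.q * j ≤ Y.a * Y.q * (l₀ + 1) := Nat.mul_le_mul_left _ (not_lt.1 hcon)
    have h2 : Y.a * Y.q * (l₀ + 1) ≤ Y.a * Y.q * (l₀ + 2) := Nat.mul_le_mul_left _ (by omega)
    omega
  obtain ⟨l, rfl⟩ : ∃ l, j = l + 1 := ⟨j - 1, by omega⟩
  have hp : R.p = Y.a * Y.q * (l + 1) + 1 := by omega
  have hn : n < R.p := by omega
  obtain ⟨D, Tr, hr, -⟩ := KC.exists_ref hpb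
  obtain ⟨hτ, hpole, hHH⟩ := hC l (by omega) hp hn D Tr hr (KR R) Z hZ.A hZ.d
  set M := Lp R S.yL with hMdef
  set τ := tau Tr (R.r (Y.ω ^ Y.a)) (l + 1) with hτdef
  set A : I → ℤ := ((l + 1 : ℕ) : ℤ) • bZ fun i => Y.a * Y.c i with hA
  have hchM : CharP M R.p := M.subtype.charP M.subtype_injective R.p
  have hfl : Module.finrank M R.F < R.p := by rw [hdeg]; exact hdlt
  have hfp : 0 < Module.finrank M R.F := Module.finrank_pos
  have hsep : Algebra.IsSeparable M R.F := sep_of_lt R.p hfl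
  have hd0 : ((Module.finrank M R.F : ℕ) : M) ≠ 0 := by
    intro h0
    rw [CharP.cast_eq_zero_iff M R.p] at h0
    exact absurd (Nat.le_of_dvd hfp h0) (by omega)
  have hdM' : ∀ a i, Z.d a i ∈ M := fun a i => by rw [hZ.d]; exact hdM a i
  have hKal : ∀ x ∈ KR R, IsAlgebraic (ZMod R.p) x := fun x hx => (mem_KR R).1 hx
  have hWM : ∀ i, ∀ s ∈ WR Y R i, s ∈ M := by
    intro i s hs
    obtain ⟨f, hf, rfl⟩ := mem_WR.1 hs
    exact hSM i f hf
  have hWM' : ∀ i, ∀ s ∈ (Y.S' i).image R.r, s ∈ M := by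
    intro i s hs
    obtain ⟨f, hf, rfl⟩ := Finset.mem_image.1 hs
    exact hS'M i f hf
  have hgenZ : Z.Gen (Y.m + 1) fun i => (Y.S' i).image R.r := by
    convert hgen' Z hZ
  have hGL : (Z.sub M hdM').Good Y.m := hG.sub hdM' hKal hgen hgenZ hWM hWM' fun i => by
    obtain ⟨f, hf, f', hf', h0, h1⟩ := htwo i
    exact ⟨_, mem_WR.2 ⟨f, hf, rfl⟩, _, mem_WR.2 ⟨f', hf', rfl⟩, h0, h1⟩
  have hEP : ∀ a, EP (fun a i => R.r (Y.x a i)) Y.co a ≠ 0 := by
    intro a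
    refine Finset.prod_ne_zero_iff.2 fun j _ => (hE a _ ?_).1
    exact mem_ER.2 ⟨j, rfl⟩
  have hstab : ∀ (T : I → ℤ) (y : R.F), y ∈ Z.V ((R.p : ℤ) • T + A) → y ∈ M → τ y ∈ Z.V T :=
    fun T y hy hyM => stab_of hZ hG hgen hbig hg₀ hcod hlink hd hd'M hch hr
      (fun b => (hcan b).2 D hr.Dt) (fun b => (hchg b).2.2 D Tr hr) hp hEP hpole hy hyM
  have htM : ∀ k, R.r (Y.t k) ∈ M := fun k => t_mem_Lp R S.yL k
  have hτM : ∀ x ∈ M, τ x ∈ M := fun x hx =>
    KC.tr_mem_sub M hd0 hpb htM hr (M.mul_mem hx (M.inv_mem (M.pow_mem hωM _)))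
  set τL : M → M := fun x => ⟨τ x, hτM x x.2⟩ with hτL
  have hτLit : ∀ (N : ℕ) (x : M), ((τL^[N] x : M) : R.F) = τ^[N] x := by
    intro N
    induction N with
    | zero => intro x; rfl
    | succ N ih =>
      intro x
      rw [Function.iterate_succ_apply, Function.iterate_succ_apply, ih]
  have hτLinv : _root_.KM.IsInv R.p τL := by
    refine ⟨fun x y => Subtype.ext ?_, fun x y => Subtype.ext ?_⟩
    · exact hτ.add x y
    · exact hτ.lin x y
  have hperf := KL_perfect R S.yL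
  have hq : (Y.q : ℝ) ≠ 0 := Nat.cast_ne_zero.2 hX.q_pos.ne'
  have hmain := hGL.asmH (p := R.p) (KL_FG R S.yL) (KL_rk R S.yL)
    (a := fun i => (Y.c i : ℝ) / Y.q)
    (fun i => div_pos (Nat.cast_pos.2 (hX.c_pos i)) (Nat.cast_pos.2 hX.q_pos))
    (A := A) (fun i => ?_) hτLinv (fun T y hy => ?_) (fun u _ c hc hc0 N₁ => ?_)
  · refine ⟨hmain.1, fun heq => ?_⟩
    obtain ⟨J, hJ, h1, h2, h3⟩ := hmain.2 heq
    refine ⟨J, hJ, _, Z.sub M hdM', fun a x => ?_, fun a i => ?_, h1, h2, h3⟩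
    · rw [← hZ.A]
      rfl
    · rw [← hZ.d]
      rfl
  · rw [hA, Pi.smul_apply, bZ, smul_eq_mul, hp]
    push_cast
    field_simp
    ring
  · exact (_root_.KM.Atl.mem_sub hdM' T (τL y)).2
      (hstab T y ((_root_.KM.Atl.mem_sub hdM' _ y).1 hy) y.2)
  · have hc' := (_root_.KM.Atl.mem_sub hdM' u c).1 hc
    obtain ⟨N, hN, y, hy, hy1⟩ := hHH u c hc' (fun h0 => hc0 (Subtype.ext h0)) N₁
    refine ⟨N, hN, ⟨prj M y, KC.prj_mem M y⟩, (_root_.KM.Atl.mem_sub hdM' _ _).2 ?_, ?_⟩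
    · rw [natCast_zsmul]
      exact hG.prj_V hd0 hKal hgen hgenZ hWM hWM' hy
    · apply Subtype.ext
      rw [hτLit]
      show τ^[N] ((c : R.F) * prj M y) = 1
      have hit : ∀ (k : ℕ) (x : R.F), τ^[k] (prj M x) = prj M (τ^[k] x) := by
        intro k
        induction k with
        | zero => intro x; rfl
        | succ k ih =>
          intro x
          have h5 : τ (prj M x) = prj M (τ x) := tau_prj hpb htM hr hωM (l + 1) x
          rw [Function.iterate_succ_apply, Function.iterate_succ_apply, h5, ih]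
      rw [← KC.prj_mul M c.2, hit, hy1, KC.prj_of_mem M hd0 M.one_mem]

end Pool.Agent.Lib.MP_732f67_ag.T
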